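import Pool.Agent.Y246.LD.Fin

/-! LDD (job 1694, helper246 for helper826): final assembly -/

namespace Pool.Agent.Y826.LD

theorem fin (hP : S_PI) (hG : S_GT) : S_FIN := Pool.Agent.Y246.LD.fin hP hG

end Pool.Agent.Y826.LD
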