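import Mathlib
import Pool.Agent.Y826.ZG.Defs

/-! Project Y826/LD (helper826): level of distribution of the primes beyond `1/2` for fixed residue classes
and factorable moduli: statements. -/

open Finset Filter

namespace Pool.Agent.Y826.LD

open Pool.Agent.Y826.Z (Pr tau GoodT)
open Pool.Agent.Y826.ZL (Cd)
open Pool.Agent.Y826.ZG (rd Hyp Cls)

/-- the Chebyshev function of a residue class -/
noncomputable def psi (y : ℝ) (q l : ℕ) : ℝ :=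
  ∑ n ∈ (Icc 1 ⌊y⌋₊).filter (fun n => n ≡ l [MOD q]), ArithmeticFunction.vonMangoldt n

/-- number of primes `p ≤ y`, `p ≡ l (mod q)` -/
noncomputable def primesAP (y : ℝ) (q l : ℕ) : ℕ := ((Icc 1 ⌊y⌋₊).filter (fun p => p.Prime ∧ p ≡ l [MOD q])).card

/-- `li y`, from `2` -/
noncomputable def li (y : ℝ) : ℝ := ∫ t in (2 : ℝ)..y, 1 / Real.log t

/-- the error term -/
noncomputable def E (y : ℝ) (q l : ℕ) : ℝ := (primesAP y q l : ℝ) - li y / (Nat.totient q : ℝ)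

open Classical in
/-- sharp cut-offs, the cut-off may depend on the modulus -/
def S_SHARP : Prop := ∀ (K : ℕ) (h : Fin K → ℤ × ℤ) (W b : ℕ), Hyp h W b → ∀ (t : Fin K → ℝ), (∀ j, 0 ≤ t j) →
  ∑ j, t j ≤ 53 / 100 → (∃ δ : ℝ, 0 < δ ∧ GoodT δ t) → ∀ bq, Cls h W b bq → ∀ A C : ℕ,
  ∀ᶠ X : ℝ in atTop, ∀ Y : (Fin K → ℕ) → ℝ, (∀ q, Y q ≤ X) →
    ∑ q ∈ (Fintype.piFinset (fun j => Icc 1 ⌊X ^ (t j)⌋₊)).filter (fun q => Squarefree (rd W * Pr q)),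
      tau (Pr q) ^ C * |psi (Y q) (W * Pr q) (bq q) - psi (Y q) 1 0 / (Nat.totient (W * Pr q) : ℝ)| ≤
        X / (Real.log X) ^ A

open Classical in
/-- primes; no modulus `W` -/
def S_PI : Prop := ∀ (K : ℕ) (h : Fin K → ℤ × ℤ),
  (∀ j, (h j).1 ≠ 0 ∧ (h j).2 ≠ 0 ∧ IsCoprime (h j).1 (h j).2) → ∀ (t : Fin K → ℝ), (∀ j, 0 ≤ t j) →
  ∑ j, t j ≤ 53 / 100 → (∃ δ : ℝ, 0 < δ ∧ GoodT δ t) → ∀ A C : ℕ,
  ∀ᶠ X : ℝ in atTop, ∀ (Y : (Fin K → ℕ) → ℝ) (l : (Fin K → ℕ) → ℕ),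
    ∑ q ∈ (Fintype.piFinset (fun j => Icc 1 ⌊X ^ (t j)⌋₊)).filter (fun q => Squarefree (Pr q) ∧ 2 ≤ Y q ∧ Y q ≤ X ∧
        (l q).Coprime (Pr q) ∧ Cd h q (l q)),
      tau (Pr q) ^ C * |E (Y q) (Pr q) (l q)| ≤ X / (Real.log X) ^ A

/-- one group of coordinates of total length `< 1/3`, the others small, total length `< 43/84` -/
def S_GT : Prop := ∀ ε : ℝ, 0 < ε → ∃ γ : ℝ, 0 < γ ∧ ∀ (K : ℕ) (t : Fin K → ℝ) (G : Finset (Fin K)),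
  (∀ j, 0 ≤ t j) → (∀ j ∉ G, t j ≤ γ) → ∑ j ∈ G, t j ≤ 1 / 3 - ε → ∑ j, t j ≤ 43 / 84 - ε →
  ∃ δ : ℝ, 0 < δ ∧ GoodT δ t

/-- five factors of any kind -/
def S_GT5 : Prop := ∃ δ : ℝ, 0 < δ ∧ GoodT δ ![0.286, 0.101, 0.053, 0.042, 0.023]

open Classical in
/-- product of the prime factors `> z` -/
noncomputable def rough (z : ℝ) (d : ℕ) : ℕ := ∏ p ∈ d.primeFactors.filter (fun p : ℕ => z < (p : ℝ)), p

open Classical in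
/-- all the squarefree moduli `d ≤ x ^ (43/84 - ε)` whose rough part is at most `x ^ (1/3 - ε)`, the maximum over
the residue classes `l` with `d ∣ ∏ (a l + b)` and the maximum over the cut-offs inside the sum -/
def S_FIN : Prop := ∀ H : Finset (ℤ × ℤ), (∀ h ∈ H, h.1 ≠ 0 ∧ h.2 ≠ 0 ∧ IsCoprime h.1 h.2) →
  ∀ ε : ℝ, 0 < ε → ∃ η : ℝ, 0 < η ∧ ∀ κ U : ℕ, ∃ C : ℝ, ∀ x : ℝ, 3 ≤ x → ∀ (y : ℕ → ℝ) (l : ℕ → ℕ),
    ∑ d ∈ (Icc 1 ⌊x ^ (43 / 84 - ε)⌋₊).filter (fun d => Squarefree d ∧ (rough (x ^ η) d : ℝ) ≤ x ^ (1 / 3 - ε) ∧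
        2 ≤ y d ∧ y d ≤ x ∧ (l d).Coprime d ∧ (d : ℤ) ∣ ∏ h ∈ H, (h.1 * (l d : ℤ) + h.2)),
      (κ : ℝ) ^ d.primeFactors.card * |E (y d) d (l d)| ≤ C * (x / (Real.log x) ^ U)

end Pool.Agent.Y826.LD
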