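import Mathlib
import Pool.Agent.Y826.LD.Defs

/-! Project Y826/LD: the grouping lemma. -/

open Finset

namespace Pool.Agent.Y826.LD

open Pool.Agent.Y826.Z (GoodT)

/-- filling a group with small items -/
theorem fill {ι : Type*} [DecidableEq ι] (x : ι → ℝ) {γ : ℝ} (hγ : 0 < γ) (τ : ℝ) (n : ℕ) :
    ∀ A B : Finset ι, A ⊆ B → (B \ A).card = n → (∀ j ∈ B \ A, x j ≤ γ) → ∑ j ∈ A, x j ≤ τ →
      τ ≤ ∑ j ∈ B, x j →
      ∃ S : Finset ι, A ⊆ S ∧ S ⊆ B ∧ ∑ j ∈ S, x j ≤ τ ∧ τ - γ < ∑ j ∈ S, x j := by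
  induction n with
  | zero =>
    intro A B hAB hn hx hA hB
    have h1 : B ⊆ A := by
      rw [card_eq_zero] at hn
      exact sdiff_eq_empty_iff_subset.1 hn
    have h2 : A = B := Subset.antisymm hAB h1
    subst h2
    exact ⟨A, Subset.refl _, Subset.refl _, hA, by linarith⟩
  | succ n ih =>
    intro A B hAB hn hx hA hB
    obtain ⟨j, hj⟩ : (B \ A).Nonempty := card_pos.1 (by omega)
    obtain ⟨hjB, hjA⟩ := mem_sdiff.1 hj
    have hs : ∑ i ∈ insert j A, x i = x j + ∑ i ∈ A, x i := sum_insert hjA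
    by_cases h : ∑ i ∈ insert j A, x i ≤ τ
    · have hsub : insert j A ⊆ B := insert_subset hjB hAB
      have hc : (B \ insert j A).card = n := by
        have : B \ insert j A = (B \ A).erase j := by
          ext i
          simp only [mem_sdiff, mem_insert, mem_erase, not_or]
          tauto
        rw [this, card_erase_of_mem hj, hn]
        rfl
      obtain ⟨S, h1, h2, h3, h4⟩ := ih (insert j A) B hsub hc (fun i hi => hx i (by
        rw [mem_sdiff] at hi ⊢
        exact ⟨hi.1, fun h' => hi.2 (mem_insert_of_mem h')⟩)) h hB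
      exact ⟨S, (subset_insert _ _).trans h1, h2, h3, h4⟩
    · refine ⟨A, Subset.refl _, hAB, hA, ?_⟩
      have := hx j hj
      rw [hs] at h
      linarith [not_le.1 h]

/-- **the grouping lemma** -/
theorem gt : S_GT := by
  intro ε0 hε0
  set ε : ℝ := min ε0 (1 / 100) with hε
  have he0 : 0 < ε := lt_min hε0 (by norm_num)
  have he1 : ε ≤ ε0 := min_le_left _ _
  have he2 : ε ≤ 1 / 100 := min_le_right _ _
  refine ⟨ε / 100, by positivity, fun K t G ht hsm hG hT => ?_⟩
  refine ⟨ε / 1000, by positivity, ?_⟩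
  intro x hx hxT ν hν1 hν2
  set T := ∑ j, x j with hTdef
  have hT1 : T ≤ 43 / 84 - ε := by
    have : T ≤ ∑ j, t j := sum_le_sum fun j _ => (hx j).2
    linarith
  have hG1 : ∑ j ∈ G, x j ≤ 1 / 3 - ε := by
    have : ∑ j ∈ G, x j ≤ ∑ j ∈ G, t j := sum_le_sum fun j _ => (hx j).2
    linarith
  have hxs : ∀ j ∉ G, x j ≤ ε / 100 := fun j hj => (hx j).2.trans (hsm j hj)
  have hγ : 0 < ε / 100 := by positivity
  set R : ℝ := max 0 (1 / 2 - ν) with hR
  have hR0 : 0 ≤ R := le_max_left _ _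
  have hR1 : 1 / 2 - ν ≤ R := le_max_right _ _
  set u : ℝ := min (2 * R) (ν - 4 / 21 + 8 * ε - ε / 1000) with hu
  have hu1 : u ≤ 2 * R := min_le_left _ _
  have hu2 : u ≤ ν - 4 / 21 + 8 * ε - ε / 1000 := min_le_right _ _
  have hu0 : 0 ≤ u := le_min (by linarith) (by linarith)
  have hRle : R ≤ 1 / 2 - ν + ε / 1000 := by
    rw [hR]
    exact max_le (by linarith) (by linarith)
  -- group 1
  obtain ⟨S1, hGS, -, a1, a2⟩ := fill x hγ (ν - ε / 2) _ G univ (subset_univ _) rfl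
    (fun j hj => hxs j (mem_sdiff.1 hj).2) (by linarith) (by rw [← hTdef]; linarith)
  have hc1 : ∑ j ∈ univ \ S1, x j = T - ∑ j ∈ S1, x j := by
    have := sum_sdiff (f := x) (subset_univ S1)
    linarith
  -- group 3
  obtain ⟨S3, -, hS3, b1, b2⟩ := fill x hγ (u / 2) _ ∅ (univ \ S1) (empty_subset _) rfl
    (fun j hj => hxs j (fun h => (mem_sdiff.1 (mem_sdiff.1 hj).1).2 (hGS h)))
    (by rw [sum_empty]; linarith) (by rw [hc1]; linarith)
  have hc3 : ∑ j ∈ (univ \ S1) \ S3, x j = T - ∑ j ∈ S1, x j - ∑ j ∈ S3, x j := by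
    have := sum_sdiff (f := x) hS3
    linarith
  -- group 2
  obtain ⟨S2, -, hS2, c1, c2⟩ := fill x hγ (R - u / 2) _ ∅ ((univ \ S1) \ S3) (empty_subset _) rfl
    (fun j hj => hxs j (fun h => (mem_sdiff.1 (mem_sdiff.1 (mem_sdiff.1 hj).1).1).2 (hGS h)))
    (by rw [sum_empty]; linarith) (by rw [hc3]; linarith)
  have hc2 : ∑ j ∈ ((univ \ S1) \ S3) \ S2, x j =
      T - ∑ j ∈ S1, x j - ∑ j ∈ S3, x j - ∑ j ∈ S2, x j := by
    have := sum_sdiff (f := x) hS2
    linarith
  have d13 : ∀ j ∈ S3, j ∉ S1 := fun j hj => (mem_sdiff.1 (hS3 hj)).2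
  have d12 : ∀ j ∈ S2, j ∉ S1 := fun j hj => (mem_sdiff.1 (mem_sdiff.1 (hS2 hj)).1).2
  have d23 : ∀ j ∈ S2, j ∉ S3 := fun j hj => (mem_sdiff.1 (hS2 hj)).2
  refine ⟨fun j => if j ∈ S1 then 1 else if j ∈ S3 then 3 else if j ∈ S2 then 2 else 4, ?_⟩
  intro y hy η hη
  have y0 : y 0 = 0 := by
    rw [hy]
    apply sum_eq_zero
    intro j hj
    exfalso
    have h := (mem_filter.1 hj).2
    beta_reduce at h
    revert h
    split_ifs <;> decide
  have y1 : y 1 = ∑ j ∈ S1, x j := by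
    rw [hy]
    apply sum_congr _ fun _ _ => rfl
    ext j
    simp only [mem_filter, mem_univ, true_and]
    split_ifs with h1 h2 h3
    · exact ⟨fun _ => h1, fun _ => rfl⟩
    · exact ⟨fun h => absurd h (by decide), fun h => absurd h h1⟩
    · exact ⟨fun h => absurd h (by decide), fun h => absurd h h1⟩
    · exact ⟨fun h => absurd h (by decide), fun h => absurd h h1⟩
  have y3 : y 3 = ∑ j ∈ S3, x j := by
    rw [hy]
    apply sum_congr _ fun _ _ => rfl
    ext j
    simp only [mem_filter, mem_univ, true_and]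
    split_ifs with h1 h2 h3
    · exact ⟨fun h => absurd h (by decide), fun h => absurd h1 (d13 j h)⟩
    · exact ⟨fun _ => h2, fun _ => rfl⟩
    · exact ⟨fun h => absurd h (by decide), fun h => absurd h h2⟩
    · exact ⟨fun h => absurd h (by decide), fun h => absurd h h2⟩
  have y2 : y 2 = ∑ j ∈ S2, x j := by
    rw [hy]
    apply sum_congr _ fun _ _ => rfl
    ext j
    simp only [mem_filter, mem_univ, true_and]
    split_ifs with h1 h2 h3
    · exact ⟨fun h => absurd h (by decide), fun h => absurd h1 (d12 j h)⟩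
    · exact ⟨fun h => absurd h (by decide), fun h => absurd h2 (d23 j h)⟩
    · exact ⟨fun _ => h3, fun _ => rfl⟩
    · exact ⟨fun h => absurd h (by decide), fun h => absurd h h3⟩
  have y4 : y 4 = T - ∑ j ∈ S1, x j - ∑ j ∈ S3, x j - ∑ j ∈ S2, x j := by
    rw [hy, ← hc2]
    apply sum_congr _ fun _ _ => rfl
    ext j
    simp only [mem_filter, mem_univ, true_and, mem_sdiff]
    split_ifs with h1 h2 h3
    · exact ⟨fun h => absurd h (by decide), fun h => absurd h1 h.1.1⟩
    · exact ⟨fun h => absurd h (by decide), fun h => absurd h2 h.1.2⟩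
    · exact ⟨fun h => absurd h (by decide), fun h => absurd h3 h.2⟩
    · exact ⟨fun _ => ⟨⟨h1, h2⟩, h3⟩, fun _ => rfl⟩
  rw [← y1] at a1 a2
  rw [← y3] at b1 b2
  rw [← y2] at c1 c2
  rw [← y1, ← y3, ← y2] at y4
  have hη1 : η ≤ 1 / 42 - 2 * ε + ε / 2 + ε / 100 := by
    rw [hη]
    refine max_le (by linarith) ?_
    rw [y0, y4]
    linarith
  have hη0 : 0 ≤ η := by rw [hη]; exact le_max_left _ _
  have hyd : y 4 ≤ 1 / 84 - ε + ε / 2 + 3 * (ε / 100) := by
    rw [y4]
    linarith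
  rw [y0]
  refine ⟨by linarith, ?_, ?_, by linarith, by linarith⟩
  · -- `y1 + 2 y2 + 2 y3 ≤ 1 - ν - δ`
    rcases le_total 0 (1 / 2 - ν) with h | h
    · rw [max_eq_right h] at hR
      linarith
    · rw [max_eq_left h] at hR
      linarith
  · -- `2 y2 + 4 y4 + 4 η ≤ ν - δ`
    rcases min_choice (2 * R) (ν - 4 / 21 + 8 * ε - ε / 1000) with h | h
    · rw [h] at hu
      linarith
    · rw [h] at hu
      rcases le_total 0 (1 / 2 - ν) with h' | h'
      · rw [max_eq_right h'] at hR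
        linarith
      · rw [max_eq_left h'] at hR
        linarith

end Pool.Agent.Y826.LD
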