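import Mathlib
import Pool.Agent.Y826.LD.Defs

/-! Project Y826/LD: five factors (job LDE). -/

open Finset

namespace Pool.Agent.Y826.LD.GT5

open Pool.Agent.Y826.Z (GoodT)
open Pool.Agent.Y826.LD

/-- one grouping -/
theorem one (x : Fin 5 → ℝ) (ν : ℝ) (g : Fin 5 → Fin 5) (c : Fin 5 → ℝ)
    (hc : ∀ i, ∑ j ∈ univ.filter (fun j => g j = i), x j = c i)
    (h1 : c 0 + c 1 ≤ ν - 1 / 1000) (h2 : c 0 + c 1 + 2 * c 2 + 2 * c 3 ≤ 1 - ν - 1 / 1000)
    (h3 : c 0 + 2 * c 2 + 4 * c 4 ≤ ν - 1 / 1000)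
    (h3' : c 0 + 2 * c 2 + 4 * c 4 + 4 * (c 0 + c 1 + 2 * c 2 + 2 * c 3 + 2 * c 4 - (1 - ν)) ≤
      ν - 1 / 1000)
    (h4 : c 1 + 2 * c 3 ≤ 2 * ν - 1 / 1000)
    (h4' : c 1 + 2 * c 3 + 8 * (c 0 + c 1 + 2 * c 2 + 2 * c 3 + 2 * c 4 - (1 - ν)) ≤
      2 * ν - 1 / 1000)
    (h5 : 1 / 1000 ≤ c 1 + 2 * c 3)
    (h5' : 8 * (c 0 + c 1 + 2 * c 2 + 2 * c 3 + 2 * c 4 - (1 - ν)) + 1 / 1000 ≤ c 1 + 2 * c 3) :
    ∃ g : Fin 5 → Fin 5, ∀ y : Fin 5 → ℝ,
      (∀ i, y i = ∑ j ∈ univ.filter (fun j => g j = i), x j) →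
    ∀ η : ℝ, η = max 0 (y 0 + y 1 + 2 * y 2 + 2 * y 3 + 2 * y 4 - (1 - ν)) →
    y 0 + y 1 ≤ ν - 1 / 1000 ∧ y 0 + y 1 + 2 * y 2 + 2 * y 3 ≤ 1 - ν - 1 / 1000 ∧
      y 0 + 2 * y 2 + 4 * y 4 + 4 * η ≤ ν - 1 / 1000 ∧
      y 1 + 2 * y 3 + 8 * η ≤ 2 * ν - 1 / 1000 ∧ 8 * η + 1 / 1000 ≤ y 1 + 2 * y 3 := by
  refine ⟨g, fun y hy η hη => ?_⟩
  have hyc : ∀ i, y i = c i := fun i => (hy i).trans (hc i)
  rw [hyc 0, hyc 1, hyc 2, hyc 3, hyc 4] at hη ⊢
  rcases max_cases 0 (c 0 + c 1 + 2 * c 2 + 2 * c 3 + 2 * c 4 - (1 - ν)) with ⟨h, _⟩ | ⟨h, _⟩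
  · rw [h] at hη
    subst hη
    refine ⟨h1, h2, ?_, ?_, ?_⟩ <;> linarith
  · rw [h] at hη
    subst hη
    refine ⟨h1, h2, ?_, ?_, ?_⟩ <;> linarith

theorem gt5 : S_GT5 := by
  refine ⟨1 / 1000, by norm_num, ?_⟩
  intro x hx hsum ν hν1 hν2
  have b0 : x 0 ≤ 0.286 := (hx 0).2
  have b1 : x 1 ≤ 0.101 := (hx 1).2
  have b2 : x 2 ≤ 0.053 := (hx 2).2
  have b3 : x 3 ≤ 0.042 := (hx 3).2
  have b4 : x 4 ≤ 0.023 := (hx 4).2
  rw [Fin.sum_univ_five] at hsum
  norm_num at b0 b1 b2 b3 b4
  by_cases e0 : ν ≤ 137 / 400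
  · refine one x ν ![1, 3, 2, 0, 4] ![x 3, x 0, x 2, x 1, x 4] ?_ ?_ ?_ ?_ ?_ ?_ ?_ ?_ ?_
    · intro i
      fin_cases i <;> simp [Finset.sum_filter, Fin.sum_univ_five]
    · simp only [Matrix.cons_val]
      linarith
    · simp only [Matrix.cons_val]
      linarith
    · simp only [Matrix.cons_val]
      linarith
    · simp only [Matrix.cons_val]
      linarith
    · simp only [Matrix.cons_val]
      linarith
    · simp only [Matrix.cons_val]
      linarith
    · simp only [Matrix.cons_val]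
      linarith
    · simp only [Matrix.cons_val]
      linarith
  rw [not_le] at e0
  by_cases e1 : ν ≤ 2143 / 6000
  · refine one x ν ![1, 3, 0, 2, 4] ![x 2, x 0, x 3, x 1, x 4] ?_ ?_ ?_ ?_ ?_ ?_ ?_ ?_ ?_
    · intro i
      fin_cases i <;> simp [Finset.sum_filter, Fin.sum_univ_five]
    · simp only [Matrix.cons_val]
      linarith
    · simp only [Matrix.cons_val]
      linarith
    · simp only [Matrix.cons_val]
      linarith
    · simp only [Matrix.cons_val]
      linarith
    · simp only [Matrix.cons_val]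
      linarith
    · simp only [Matrix.cons_val]
      linarith
    · simp only [Matrix.cons_val]
      linarith
    · simp only [Matrix.cons_val]
      linarith
  rw [not_le] at e1
  by_cases e2 : ν ≤ 277 / 750
  · refine one x ν ![1, 3, 4, 0, 1] ![x 3, x 0 + x 4, 0, x 1, x 2] ?_ ?_ ?_ ?_ ?_ ?_ ?_ ?_ ?_
    · intro i
      fin_cases i <;> simp [Finset.sum_filter, Fin.sum_univ_five]
    · simp only [Matrix.cons_val]
      linarith
    · simp only [Matrix.cons_val]
      linarith
    · simp only [Matrix.cons_val]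
      linarith
    · simp only [Matrix.cons_val]
      linarith
    · simp only [Matrix.cons_val]
      linarith
    · simp only [Matrix.cons_val]
      linarith
    · simp only [Matrix.cons_val]
      linarith
    · simp only [Matrix.cons_val]
      linarith
  rw [not_le] at e2
  by_cases e3 : ν ≤ 1163 / 3000
  · refine one x ν ![1, 3, 0, 4, 0] ![x 2 + x 4, x 0, 0, x 1, x 3] ?_ ?_ ?_ ?_ ?_ ?_ ?_ ?_ ?_
    · intro i
      fin_cases i <;> simp [Finset.sum_filter, Fin.sum_univ_five]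
    · simp only [Matrix.cons_val]
      linarith
    · simp only [Matrix.cons_val]
      linarith
    · simp only [Matrix.cons_val]
      linarith
    · simp only [Matrix.cons_val]
      linarith
    · simp only [Matrix.cons_val]
      linarith
    · simp only [Matrix.cons_val]
      linarith
    · simp only [Matrix.cons_val]
      linarith
    · simp only [Matrix.cons_val]
      linarith
  rw [not_le] at e3
  by_cases e4 : ν ≤ 2479 / 6000
  · refine one x ν ![1, 3, 0, 0, 4] ![x 2 + x 3, x 0, 0, x 1, x 4] ?_ ?_ ?_ ?_ ?_ ?_ ?_ ?_ ?_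
    · intro i
      fin_cases i <;> simp [Finset.sum_filter, Fin.sum_univ_five]
    · simp only [Matrix.cons_val]
      linarith
    · simp only [Matrix.cons_val]
      linarith
    · simp only [Matrix.cons_val]
      linarith
    · simp only [Matrix.cons_val]
      linarith
    · simp only [Matrix.cons_val]
      linarith
    · simp only [Matrix.cons_val]
      linarith
    · simp only [Matrix.cons_val]
      linarith
    · simp only [Matrix.cons_val]
      linarith
  rw [not_le] at e4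
  by_cases e5 : ν ≤ 341 / 750
  · refine one x ν ![1, 1, 4, 3, 0] ![x 4, x 0 + x 1, 0, x 3, x 2] ?_ ?_ ?_ ?_ ?_ ?_ ?_ ?_ ?_
    · intro i
      fin_cases i <;> simp [Finset.sum_filter, Fin.sum_univ_five]
    · simp only [Matrix.cons_val]
      linarith
    · simp only [Matrix.cons_val]
      linarith
    · simp only [Matrix.cons_val]
      linarith
    · simp only [Matrix.cons_val]
      linarith
    · simp only [Matrix.cons_val]
      linarith
    · simp only [Matrix.cons_val]
      linarith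
    · simp only [Matrix.cons_val]
      linarith
    · simp only [Matrix.cons_val]
      linarith
  rw [not_le] at e5
  by_cases e6 : ν ≤ 3987 / 8000
  · refine one x ν ![1, 1, 4, 1, 1] ![0, x 0 + x 1 + x 3 + x 4, 0, 0, x 2] ?_ ?_ ?_ ?_ ?_ ?_ ?_ ?_ ?_
    · intro i
      fin_cases i <;> simp [Finset.sum_filter, Fin.sum_univ_five]
    · simp only [Matrix.cons_val]
      linarith
    · simp only [Matrix.cons_val]
      linarith
    · simp only [Matrix.cons_val]
      linarith
    · simp only [Matrix.cons_val]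
      linarith
    · simp only [Matrix.cons_val]
      linarith
    · simp only [Matrix.cons_val]
      linarith
    · simp only [Matrix.cons_val]
      linarith
    · simp only [Matrix.cons_val]
      linarith
  rw [not_le] at e6
  refine one x ν ![1, 1, 1, 1, 4] ![0, x 0 + x 1 + x 2 + x 3, 0, 0, x 4] ?_ ?_ ?_ ?_ ?_ ?_ ?_ ?_ ?_
  · intro i
    fin_cases i <;> simp [Finset.sum_filter, Fin.sum_univ_five]
  · simp only [Matrix.cons_val]
    linarith
  · simp only [Matrix.cons_val]
    linarith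
  · simp only [Matrix.cons_val]
    linarith
  · simp only [Matrix.cons_val]
    linarith
  · simp only [Matrix.cons_val]
    linarith
  · simp only [Matrix.cons_val]
    linarith
  · simp only [Matrix.cons_val]
    linarith
  · simp only [Matrix.cons_val]
    linarith

end Pool.Agent.Y826.LD.GT5
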