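import Mathlib
import Pool.Agent.Y826.LD.Defs
import Pool.Agent.H442R2.EHI.FinalOf

/-! Project Y826/LD, job LDB (helper93): from `psi` to `pi` for one modulus. -/

set_option autoImplicit false

open Finset Filter

namespace Pool.Agent.Y826.LD.PA

open Pool.Agent.H442R2.EHI (lis)

/-- prime powers with exponent at least two -/
noncomputable def npp (N Q l : ℕ) : ℝ :=
  ∑ n ∈ (Icc 1 N).filter (fun n => ¬ n.Prime ∧ n ≡ l [MOD Q]), ArithmeticFunction.vonMangoldt n

lemma npp_nonneg (N Q l : ℕ) : 0 ≤ npp N Q l :=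
  sum_nonneg fun _ _ => ArithmeticFunction.vonMangoldt_nonneg

lemma npp_mono {M N : ℕ} (h : M ≤ N) (Q l : ℕ) : npp M Q l ≤ npp N Q l := by
  unfold npp
  refine sum_le_sum_of_subset_of_nonneg (filter_subset_filter _ (Icc_subset_Icc_right h)) ?_
  intro _ _ _
  exact ArithmeticFunction.vonMangoldt_nonneg

/-- the coefficients -/
noncomputable def cc (Q l : ℕ) (k : ℕ) : ℝ :=
  if k.Prime then Real.log k * ((if k ≡ l [MOD Q] then 1 else 0) - 1 / (Nat.totient Q : ℝ)) else 0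

/-- Abel's inequality -/
lemma abel (c : ℕ → ℝ) (M : ℝ) (N : ℕ) (hN : 2 ≤ N) (h : ∀ m, m ≤ N → |∑ k ∈ Icc 2 m, c k| ≤ M) :
    |∑ k ∈ Icc 2 N, c k / Real.log k| ≤ M / Real.log 2 := by
  have hl2 : 0 < Real.log 2 := Real.log_pos (by norm_num)
  have key : ∀ n, 2 ≤ n → n ≤ N →
      |∑ k ∈ Icc 2 n, c k / Real.log k - (∑ k ∈ Icc 2 n, c k) / Real.log n| ≤
        M * (1 / Real.log 2 - 1 / Real.log n) := by
    intro n hn
    induction n, hn using Nat.le_induction with
    | base =>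
      intro _
      simp
    | succ n hn ih =>
      intro hnN
      have h1 := ih (by omega)
      have h2 := h n (by omega)
      have hn1 : (1 : ℝ) < n := by exact_mod_cast (by omega : 1 < n)
      have hl : 0 < Real.log n := Real.log_pos hn1
      have hl' : Real.log n ≤ Real.log ((n + 1 : ℕ) : ℝ) := by
        apply Real.log_le_log (by linarith)
        push_cast
        linarith
      have hs : Icc 2 (n + 1) = insert (n + 1) (Icc 2 n) := by
        ext k
        simp only [mem_Icc, mem_insert]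
        omega
      rw [hs, sum_insert (by simp), sum_insert (by simp)]
      have e : c (n + 1) / Real.log ((n + 1 : ℕ) : ℝ) + ∑ k ∈ Icc 2 n, c k / Real.log k -
          (c (n + 1) + ∑ k ∈ Icc 2 n, c k) / Real.log ((n + 1 : ℕ) : ℝ) =
          (∑ k ∈ Icc 2 n, c k / Real.log k - (∑ k ∈ Icc 2 n, c k) / Real.log n) +
            (∑ k ∈ Icc 2 n, c k) * (1 / Real.log n - 1 / Real.log ((n + 1 : ℕ) : ℝ)) := by ring
      rw [e]
      have hd : 0 ≤ 1 / Real.log n - 1 / Real.log ((n + 1 : ℕ) : ℝ) := by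
        have := one_div_le_one_div_of_le hl hl'
        linarith
      refine (abs_add_le _ _).trans ?_
      rw [abs_mul, abs_of_nonneg hd]
      have h3 := mul_le_mul_of_nonneg_right h2 hd
      have e2 : M * (1 / Real.log 2 - 1 / Real.log ((n + 1 : ℕ) : ℝ)) =
          M * (1 / Real.log 2 - 1 / Real.log n) +
            M * (1 / Real.log n - 1 / Real.log ((n + 1 : ℕ) : ℝ)) := by ring
      rw [e2]
      exact add_le_add h1 h3
  have h1 := key N hN le_rfl
  have h2 := h N le_rfl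
  have hN1 : (1 : ℝ) < N := by exact_mod_cast (by omega : 1 < N)
  have hl : 0 < Real.log N := Real.log_pos hN1
  have e : ∑ k ∈ Icc 2 N, c k / Real.log k =
      (∑ k ∈ Icc 2 N, c k / Real.log k - (∑ k ∈ Icc 2 N, c k) / Real.log N) +
        (∑ k ∈ Icc 2 N, c k) / Real.log N := by ring
  rw [e]
  refine (abs_add_le _ _).trans ?_
  rw [abs_div, abs_of_pos hl]
  have h3 : |∑ k ∈ Icc 2 N, c k| / Real.log N ≤ M / Real.log N := div_le_div_of_nonneg_right h2 hl.le
  have e2 : M / Real.log 2 = M * (1 / Real.log 2 - 1 / Real.log N) + M / Real.log N := by ring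
  rw [e2]
  exact add_le_add h1 h3

lemma Icc_one_two (m : ℕ) (f : ℕ → ℝ) (h1 : f 1 = 0) : ∑ k ∈ Icc 1 m, f k = ∑ k ∈ Icc 2 m, f k := by
  rcases Nat.lt_or_ge m 1 with h | h
  · have hm : m = 0 := by omega
    subst hm
    simp
  · have hs : Icc 1 m = insert 1 (Icc 2 m) := by
      ext k
      simp only [mem_Icc, mem_insert]
      omega
    rw [hs, sum_insert (by simp), h1, zero_add]

lemma psi_eq (m Q l : ℕ) : psi m Q l =
    ∑ k ∈ Icc 2 m, (if k.Prime then Real.log k * (if k ≡ l [MOD Q] then 1 else 0) else 0) + npp m Q l := by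
  unfold psi npp
  rw [Nat.floor_natCast, sum_filter, sum_filter, ← Icc_one_two m _ (by simp [Nat.not_prime_one]),
    ← sum_add_distrib]
  refine sum_congr rfl fun k _ => ?_
  by_cases h1 : k.Prime
  · by_cases h2 : k ≡ l [MOD Q]
    · simp [h1, h2, ArithmeticFunction.vonMangoldt_apply_prime h1]
    · simp [h1, h2]
  · by_cases h2 : k ≡ l [MOD Q]
    · simp [h1, h2]
    · simp [h1, h2]

lemma sum_cc (m Q l : ℕ) : ∑ k ∈ Icc 2 m, cc Q l k =
    (psi m Q l - psi m 1 0 / (Nat.totient Q : ℝ)) - (npp m Q l - npp m 1 0 / (Nat.totient Q : ℝ)) := by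
  rw [psi_eq m Q l, psi_eq m 1 0]
  have e : ∑ k ∈ Icc 2 m, cc Q l k =
      ∑ k ∈ Icc 2 m, (if k.Prime then Real.log k * (if k ≡ l [MOD Q] then 1 else 0) else 0) -
        (∑ k ∈ Icc 2 m, (if k.Prime then Real.log k * (if k ≡ 0 [MOD 1] then 1 else 0) else 0)) /
          (Nat.totient Q : ℝ) := by
    rw [sum_div, ← sum_sub_distrib]
    refine sum_congr rfl fun k _ => ?_
    unfold cc
    have h0 : k ≡ 0 [MOD 1] := Nat.modEq_one
    by_cases h1 : k.Prime
    · simp only [if_pos h1, if_pos h0]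
      ring
    · simp [h1]
  rw [e]
  ring

lemma primes_eq (N Q l : ℕ) : (primesAP N Q l : ℝ) - (primesAP N 1 0 : ℝ) / (Nat.totient Q : ℝ) =
    ∑ k ∈ Icc 2 N, cc Q l k / Real.log k := by
  have h : ∀ Q l : ℕ, (primesAP N Q l : ℝ) =
      ∑ k ∈ Icc 2 N, (if k.Prime then (if k ≡ l [MOD Q] then (1 : ℝ) else 0) else 0) := by
    intro Q l
    unfold primesAP
    rw [Nat.floor_natCast, card_filter]
    push_cast
    rw [Icc_one_two N _ (by simp [Nat.not_prime_one])]
    refine sum_congr rfl fun k _ => ?_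
    by_cases h1 : k.Prime <;> by_cases h2 : k ≡ l [MOD Q] <;> simp [h1, h2]
  rw [h Q l, h 1 0, sum_div, ← sum_sub_distrib]
  refine sum_congr rfl fun k hk => ?_
  unfold cc
  have h0 : k ≡ 0 [MOD 1] := Nat.modEq_one
  rw [mem_Icc] at hk
  have hk1 : (1 : ℝ) < k := by exact_mod_cast (by omega : 1 < k)
  have hl : Real.log k ≠ 0 := (Real.log_pos hk1).ne'
  by_cases h1 : k.Prime
  · simp only [if_pos h1, if_pos h0]
    field_simp
  · simp [h1]

lemma primesAP_floor (y : ℝ) (Q l : ℕ) : primesAP y Q l = primesAP (⌊y⌋₊ : ℕ) Q l := by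
  unfold primesAP
  rw [Nat.floor_natCast]

lemma li_lis (y : ℝ) (hy : 2 ≤ y) : |lis ⌊y⌋₊ - li y| ≤ 4 := by
  have hf : (⌊y⌋₊ : ℝ) ≤ y := Nat.floor_le (by linarith)
  have hn2 : 2 ≤ ⌊y⌋₊ := Nat.le_floor (by exact_mod_cast hy)
  have hf1 : y < (⌊y⌋₊ : ℝ) + 1 := Nat.lt_floor_add_one y
  have hf2 : (2 : ℝ) ≤ (⌊y⌋₊ : ℝ) := by exact_mod_cast hn2
  have h1 := Pool.Agent.H442R2.EHI.FinalOf.lis_sub ⌊y⌋₊ hn2
  have hint : ∀ a b : ℝ, 2 ≤ a → 2 ≤ b → IntervalIntegrable (fun t => 1 / Real.log t)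
      MeasureTheory.volume a b := by
    intro a b ha hb
    apply ContinuousOn.intervalIntegrable
    intro t ht
    have ht2 : 2 ≤ t := (le_min ha hb).trans ht.1
    have hl : Real.log t ≠ 0 := (Real.log_pos (by linarith)).ne'
    have h1 : ContinuousAt (fun t => 1 / Real.log t) t :=
      continuousAt_const.div (Real.continuousAt_log (by linarith)) hl
    exact h1.continuousWithinAt
  have h2 : |li y - ∫ t in (2 : ℝ)..(⌊y⌋₊ : ℝ), 1 / Real.log t| ≤ 2 := by
    unfold li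
    rw [intervalIntegral.integral_interval_sub_left (hint 2 y le_rfl hy) (hint 2 _ le_rfl hf2)]
    have h := intervalIntegral.norm_integral_le_of_norm_le_const (a := (⌊y⌋₊ : ℝ)) (b := y)
      (f := fun t => 1 / Real.log t) (C := 2) (by
        intro t ht
        rw [Set.uIoc_of_le hf] at ht
        have ht2 : 2 ≤ t := hf2.trans ht.1.le
        have h3 : Real.log 2 ≤ Real.log t := Real.log_le_log (by norm_num) ht2
        have := Real.log_two_gt_d9
        rw [Real.norm_eq_abs, abs_of_pos (by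
          have : 0 < Real.log t := by linarith
          positivity), div_le_iff₀ (by linarith)]
        linarith)
    rw [Real.norm_eq_abs] at h
    refine h.trans ?_
    rw [abs_of_nonneg (by linarith)]
    linarith
  have e : lis ⌊y⌋₊ - li y = (lis ⌊y⌋₊ - ∫ t in (2 : ℝ)..(⌊y⌋₊ : ℝ), 1 / Real.log t) -
      (li y - ∫ t in (2 : ℝ)..(⌊y⌋₊ : ℝ), 1 / Real.log t) := by ring
  rw [e]
  refine (abs_sub _ _).trans ?_
  linarith

/-- one modulus -/
theorem E_le (N : ℕ) (y : ℝ) (hy : 2 ≤ y) (hyN : ⌊y⌋₊ ≤ N) (Q l : ℕ) (M P : ℝ)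
    (hM : ∀ m : ℕ, m ≤ N → |psi m Q l - psi m 1 0 / (Nat.totient Q : ℝ)| ≤ M)
    (hP : ∀ m : ℕ, 2 ≤ m → m ≤ N → |(primesAP m 1 0 : ℝ) - lis m| ≤ P) :
    |E y Q l| ≤ 2 * (M + npp N Q l) + (2 * npp N 1 0 + P + 4) * (1 / (Nat.totient Q : ℝ)) := by
  set n := ⌊y⌋₊ with hn
  have hn2 : 2 ≤ n := Nat.le_floor (by exact_mod_cast hy)
  have hnN : n ≤ N := hyN
  have hphi : 0 ≤ 1 / (Nat.totient Q : ℝ) := by positivity
  have hl2 : (1 / 2 : ℝ) ≤ Real.log 2 := by
    have := Real.log_two_gt_d9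
    linarith
  have h1 := abel (cc Q l) (M + npp N Q l + npp N 1 0 * (1 / (Nat.totient Q : ℝ))) n hn2 (by
    intro m hm
    rw [sum_cc]
    have a1 := hM m (hm.trans hnN)
    have a2 := npp_mono (hm.trans hnN) Q l
    have a3 := npp_mono (hm.trans hnN) 1 0
    have a4 := npp_nonneg m Q l
    have a5 := npp_nonneg m 1 0
    have a6 : npp m 1 0 / (Nat.totient Q : ℝ) ≤ npp N 1 0 * (1 / (Nat.totient Q : ℝ)) := by
      rw [div_eq_mul_one_div]
      exact mul_le_mul_of_nonneg_right a3 hphi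
    have a7 : 0 ≤ npp m 1 0 / (Nat.totient Q : ℝ) := by positivity
    rw [abs_le] at a1 ⊢
    constructor <;> linarith [a1.1, a1.2])
  rw [← primes_eq] at h1
  have hM0 : 0 ≤ M := (abs_nonneg _).trans (hM 0 (Nat.zero_le _))
  have hM1 : 0 ≤ M + npp N Q l + npp N 1 0 * (1 / (Nat.totient Q : ℝ)) := by
    have := npp_nonneg N Q l
    have := npp_nonneg N 1 0
    positivity
  have h1' : |(primesAP n Q l : ℝ) - (primesAP n 1 0 : ℝ) / (Nat.totient Q : ℝ)| ≤
      2 * (M + npp N Q l + npp N 1 0 * (1 / (Nat.totient Q : ℝ))) := by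
    refine h1.trans ?_
    rw [div_le_iff₀ (by linarith)]
    nlinarith
  have h2 := hP n hn2 hnN
  have h3 := li_lis y hy
  rw [← hn] at h3
  unfold E
  rw [primesAP_floor, ← hn]
  have e : (primesAP n Q l : ℝ) - li y / (Nat.totient Q : ℝ) =
      ((primesAP n Q l : ℝ) - (primesAP n 1 0 : ℝ) / (Nat.totient Q : ℝ)) +
        (((primesAP n 1 0 : ℝ) - lis n) + (lis n - li y)) * (1 / (Nat.totient Q : ℝ)) := by ring
  rw [e]
  refine (abs_add_le _ _).trans ?_
  rw [abs_mul, abs_of_nonneg hphi]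
  have h4 : |((primesAP n 1 0 : ℝ) - lis n) + (lis n - li y)| ≤ P + 4 :=
    (abs_add_le _ _).trans (add_le_add h2 h3)
  have h5 := mul_le_mul_of_nonneg_right h4 hphi
  have e2 : 2 * (M + npp N Q l) + (2 * npp N 1 0 + P + 4) * (1 / (Nat.totient Q : ℝ)) =
      2 * (M + npp N Q l + npp N 1 0 * (1 / (Nat.totient Q : ℝ))) + (P + 4) * (1 / (Nat.totient Q : ℝ)) := by ring
  rw [e2]
  exact add_le_add h1' h5

end Pool.Agent.Y826.LD.PA
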