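import Mathlib
import Pool.Agent.Y826.LD.PiA
import Pool.Agent.Y826.ZG.Y950.ZZ3
import Pool.Agent.H510R2.Div
import Pool.Agent.TH935.LP.L1
import Pool.Agent.H442R2.EHI.PntErr

/-! Project Y826/LD, job LDB (helper93): prime powers and the mass of the main terms. -/

set_option autoImplicit false

open Finset Filter

namespace Pool.Agent.Y826.LD.PB

open Pool.Agent.Y826.Z (Pr tau GoodT)
open Pool.Agent.Y826.ZL (Cd)
open Pool.Agent.Y826.ZG (rd Hyp Cls)
open Pool.Agent.Y826.ZG.Y950 (tau_nonneg one_le_tau tau_prod_le one_div_totient_le tuples_le)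
open Pool.Agent.Y826.LD.PA (npp npp_nonneg)
open Pool.Agent.H442R2.EHI (lis)

lemma ev_tau (k : ℕ) (ε : ℝ) (hε : 0 < ε) : ∀ᶠ X : ℝ in atTop, ∀ n : ℕ, n ≠ 0 → (n : ℝ) ≤ X ^ 10 →
    tau n ^ k ≤ X ^ ε := by
  set η : ℝ := ε / (20 * (k + 1)) with hη
  have hη0 : 0 < η := by positivity
  obtain ⟨C, hC0, hC⟩ := Pool.Agent.H510R2.divisor_bound η hη0
  have h2 := (tendsto_rpow_atTop (show 0 < ε / 2 by positivity)).eventually_ge_atTop (C ^ (k + 1))
  filter_upwards [h2, eventually_ge_atTop 1] with X h2 h3 n hn hnX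
  have hX0 : 0 < X := by linarith
  have h4 : tau n ≤ C * X ^ (10 * η) := by
    unfold tau
    refine (hC n (Nat.one_le_iff_ne_zero.2 hn)).trans ?_
    apply mul_le_mul_of_nonneg_left _ hC0.le
    calc (n : ℝ) ^ η ≤ (X ^ 10) ^ η := Real.rpow_le_rpow (Nat.cast_nonneg _) hnX hη0.le
      _ = X ^ (10 * η) := by
        rw [← Real.rpow_natCast, ← Real.rpow_mul hX0.le]
        norm_num
  calc tau n ^ k ≤ tau n ^ (k + 1) := pow_le_pow_right₀ (one_le_tau hn) (Nat.le_succ k)
    _ ≤ (C * X ^ (10 * η)) ^ (k + 1) := pow_le_pow_left₀ (tau_nonneg n) h4 _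
    _ = C ^ (k + 1) * X ^ (ε / 2) := by
        rw [mul_pow, ← Real.rpow_natCast (X ^ (10 * η)), ← Real.rpow_mul hX0.le]
        congr 2
        rw [hη]
        push_cast
        field_simp
        norm_num
    _ ≤ X ^ (ε / 2) * X ^ (ε / 2) := mul_le_mul_of_nonneg_right h2 (by positivity)
    _ = X ^ ε := by
        rw [← Real.rpow_add hX0]
        congr 1
        ring

/-- the product of a tuple of the box -/
lemma Pr_le {K : ℕ} {t : Fin K → ℝ} {X : ℝ} (hX : 1 ≤ X) {q : Fin K → ℕ}
    (hq : q ∈ Fintype.piFinset (fun j => Icc 1 ⌊X ^ (t j)⌋₊)) :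
    Pr q ≠ 0 ∧ (Pr q : ℝ) ≤ X ^ (∑ j, t j) := by
  rw [Fintype.mem_piFinset] at hq
  constructor
  · unfold Pr
    rw [Finset.prod_ne_zero_iff]
    intro j _
    have := mem_Icc.1 (hq j)
    omega
  · unfold Pr
    push_cast
    rw [Real.rpow_sum_of_pos (by linarith)]
    refine Finset.prod_le_prod (fun j _ => Nat.cast_nonneg _) fun j _ => ?_
    have h1 := (mem_Icc.1 (hq j)).2
    have h2 : (0 : ℝ) ≤ X ^ t j := Real.rpow_nonneg (by linarith) _
    exact (Nat.le_floor_iff h2).1 h1

lemma card_box {K : ℕ} {t : Fin K → ℝ} {X : ℝ} (hX : 1 ≤ X) :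
    ((Fintype.piFinset (fun j => Icc 1 ⌊X ^ (t j)⌋₊)).card : ℝ) ≤ X ^ (∑ j, t j) := by
  rw [Fintype.card_piFinset]
  push_cast
  rw [Real.rpow_sum_of_pos (by linarith)]
  refine Finset.prod_le_prod (fun j _ => Nat.cast_nonneg _) fun j _ => ?_
  rw [Nat.card_Icc, Nat.add_sub_cancel]
  exact Nat.floor_le (Real.rpow_nonneg (by linarith) _)

/-- the sum of the weights over the box -/
lemma box_tau {K : ℕ} (t : Fin K → ℝ) (ht1 : ∑ j, t j ≤ 53 / 100) (C : ℕ) (ε : ℝ) (hε : 0 < ε) :
    ∀ᶠ X : ℝ in atTop, ∀ S : Finset (Fin K → ℕ), S ⊆ Fintype.piFinset (fun j => Icc 1 ⌊X ^ (t j)⌋₊) →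
      ∑ q ∈ S, tau (Pr q) ^ C ≤ X ^ (53 / 100 + ε) := by
  filter_upwards [ev_tau C ε hε, eventually_ge_atTop 1] with X h1 hX S hS
  have hX0 : 0 < X := by linarith
  calc ∑ q ∈ S, tau (Pr q) ^ C
      ≤ ∑ q ∈ Fintype.piFinset (fun j => Icc 1 ⌊X ^ (t j)⌋₊), tau (Pr q) ^ C :=
        sum_le_sum_of_subset_of_nonneg hS fun q _ _ => pow_nonneg (tau_nonneg _) _
    _ ≤ ∑ q ∈ Fintype.piFinset (fun j => Icc 1 ⌊X ^ (t j)⌋₊), X ^ ε := by
        refine sum_le_sum fun q hq => ?_
        obtain ⟨h2, h3⟩ := Pr_le hX hq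
        refine h1 _ h2 (h3.trans ?_)
        rw [← Real.rpow_natCast]
        apply Real.rpow_le_rpow_of_exponent_le hX
        push_cast
        linarith
    _ = ((Fintype.piFinset (fun j => Icc 1 ⌊X ^ (t j)⌋₊)).card : ℝ) * X ^ ε := by
        rw [sum_const, nsmul_eq_mul]
    _ ≤ X ^ (∑ j, t j) * X ^ ε := mul_le_mul_of_nonneg_right (card_box hX) (by positivity)
    _ ≤ X ^ (53 / 100 : ℝ) * X ^ ε := by
        apply mul_le_mul_of_nonneg_right _ (by positivity)
        exact Real.rpow_le_rpow_of_exponent_le hX ht1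
    _ = X ^ (53 / 100 + ε) := by rw [← Real.rpow_add hX0]

/-- all prime powers with exponent at least two -/
lemma npp_all : ∃ C : ℝ, 0 < C ∧ ∀ N : ℕ, npp N 1 0 ≤ C * √(N : ℝ) := by
  obtain ⟨C, hC⟩ := Chebyshev.psi_sub_theta_le_mul_sqrt
  refine ⟨|C| + 1, by positivity, fun N => ?_⟩
  have h1 : npp N 1 0 = Chebyshev.psi N - Chebyshev.theta N := by
    unfold npp Chebyshev.psi Chebyshev.theta
    rw [Nat.floor_natCast, sum_filter, sum_filter, ← sum_sub_distrib]
    have hs : Icc 1 N = Ioc 0 N := by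
      ext k
      simp only [mem_Icc, mem_Ioc]
      omega
    rw [hs]
    refine sum_congr rfl fun k _ => ?_
    have h0 : k ≡ 0 [MOD 1] := Nat.modEq_one
    by_cases h1 : k.Prime
    · simp [h1, ArithmeticFunction.vonMangoldt_apply_prime h1]
    · simp [h1, h0]
  rw [h1]
  refine (hC N).trans ?_
  apply mul_le_mul_of_nonneg_right _ (Real.sqrt_nonneg _)
  linarith [le_abs_self C]

/-- the prime powers with exponent at least two in the classes of the tuples -/
lemma npp_sum {K : ℕ} (h : Fin K → ℤ × ℤ) (hh : ∀ j, (h j).1 ≠ 0) (W b : ℕ) (t : Fin K → ℝ)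
    (ht1 : ∑ j, t j ≤ 53 / 100) (bq : (Fin K → ℕ) → ℕ) (hbq : Cls h W b bq) (C : ℕ) :
    ∀ᶠ X : ℝ in atTop, ∀ S : Finset (Fin K → ℕ), S ⊆ Fintype.piFinset (fun j => Icc 1 ⌊X ^ (t j)⌋₊) →
      (∀ q ∈ S, Squarefree (rd W * Pr q)) →
      ∑ q ∈ S, tau (Pr q) ^ C * npp ⌊X⌋₊ (W * Pr q) (bq q) ≤ X ^ (9 / 10 : ℝ) := by
  classical
  obtain ⟨D, hD, hnpp⟩ := npp_all
  set H : ℕ := ∑ j, ((h j).1.natAbs + (h j).2.natAbs) with hH
  have hlog := (isLittleO_log_rpow_atTop (show (0 : ℝ) < 1 / 100 by norm_num)).bound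
    (show (0 : ℝ) < 1 by norm_num)
  have hbig := (tendsto_rpow_atTop (show (0 : ℝ) < 1 / 100 by norm_num)).eventually_ge_atTop (D + K + 1)
  have hε1 : (0 : ℝ) < 1 / (100 * (K + 1)) := by positivity
  filter_upwards [ev_tau (C + 1) (1 / (100 * (K + 1))) hε1, box_tau t ht1 C (1 / 100) (by norm_num), hlog,
    hbig, eventually_ge_atTop ((H : ℝ) + 2)] with X h1 h2 h3 h4 hXH S hS hsf
  have hH0 : (0 : ℝ) ≤ H := Nat.cast_nonneg _
  have hX2 : 2 ≤ X := by linarith
  have hX0 : 0 < X := by linarith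
  have hX1 : 1 ≤ X := by linarith
  set N := ⌊X⌋₊ with hN
  have hNX : (N : ℝ) ≤ X := Nat.floor_le hX0.le
  set v : Fin K → ℕ → ℤ := fun j n => (h j).1 * (n : ℤ) + (h j).2 with hv
  set B1 : ℝ := X ^ (53 / 100 + 1 / 100 : ℝ) with hB1
  have hB10 : 0 ≤ B1 := by positivity
  have hlog0 : 0 ≤ Real.log X := Real.log_nonneg hX1
  have h3' : Real.log X ≤ X ^ (1 / 100 : ℝ) := by
    rw [Real.norm_of_nonneg hlog0, Real.norm_of_nonneg (by positivity), one_mul] at h3
    exact h3
  -- the inner sum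
  have hin : ∀ n ∈ Icc 1 N, ∑ q ∈ S.filter (fun q => n ≡ bq q [MOD (W * Pr q)]), tau (Pr q) ^ C ≤
      X ^ (1 / 100 : ℝ) + ∑ j, (if v j n = 0 then B1 else 0) := by
    intro n hn
    rw [mem_Icc] at hn
    have hnn : ∀ j, 0 ≤ (if v j n = 0 then B1 else 0) := by
      intro j
      split_ifs
      · exact hB10
      · exact le_rfl
    by_cases hz : ∀ j, v j n ≠ 0
    · have a1 := tuples_le h n hz (S.filter (fun q => n ≡ bq q [MOD (W * Pr q)])) (by
        intro q hq
        rw [mem_filter] at hq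
        exact ((hbq q (hsf q hq.1) n).1 hq.2).2) C
      have a2 : ∏ j, tau (v j n).natAbs ^ (C + 1) ≤ ∏ _j : Fin K, X ^ (1 / (100 * (K + 1)) : ℝ) := by
        refine Finset.prod_le_prod (fun j _ => pow_nonneg (tau_nonneg _) _) fun j _ => ?_
        refine h1 _ (by simpa using hz j) ?_
        have b1 : (v j n).natAbs ≤ H * (N + 1) := by
          have c1 : (v j n).natAbs ≤ (h j).1.natAbs * n + (h j).2.natAbs := by
            rw [hv]
            refine (Int.natAbs_add_le _ _).trans ?_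
            rw [Int.natAbs_mul, Int.natAbs_natCast]
          have c2 : (h j).1.natAbs + (h j).2.natAbs ≤ H := by
            rw [hH]
            exact Finset.single_le_sum (f := fun j => (h j).1.natAbs + (h j).2.natAbs)
              (fun _ _ => Nat.zero_le _) (mem_univ j)
          calc (v j n).natAbs ≤ (h j).1.natAbs * n + (h j).2.natAbs := c1
            _ ≤ (h j).1.natAbs * (N + 1) + (h j).2.natAbs * (N + 1) := by
                apply add_le_add
                · exact Nat.mul_le_mul_left _ (by omega)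
                · exact Nat.le_mul_of_pos_right _ (by omega)
            _ = ((h j).1.natAbs + (h j).2.natAbs) * (N + 1) := by ring
            _ ≤ H * (N + 1) := Nat.mul_le_mul_right _ c2
        have b2 : ((v j n).natAbs : ℝ) ≤ (H : ℝ) * (N + 1) := by exact_mod_cast b1
        calc ((v j n).natAbs : ℝ) ≤ (H : ℝ) * (N + 1) := b2
          _ ≤ X * (X + 1) := by
              apply mul_le_mul (by linarith) (by linarith) (by positivity) hX0.le
          _ ≤ X * (X * X) := by
              apply mul_le_mul_of_nonneg_left _ hX0.le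
              nlinarith
          _ = X ^ 3 := by ring
          _ ≤ X ^ 10 := pow_le_pow_right₀ hX1 (by norm_num)
      have a3 : ∏ _j : Fin K, X ^ (1 / (100 * (K + 1)) : ℝ) ≤ X ^ (1 / 100 : ℝ) := by
        rw [prod_const, card_univ, Fintype.card_fin, ← Real.rpow_natCast, ← Real.rpow_mul hX0.le]
        apply Real.rpow_le_rpow_of_exponent_le hX1
        have hK : (0 : ℝ) ≤ K := Nat.cast_nonneg _
        rw [div_mul_eq_mul_div, one_mul, div_le_div_iff₀ (by positivity) (by norm_num)]
        linarith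
      have a4 : 0 ≤ ∑ j, (if v j n = 0 then B1 else 0) := sum_nonneg fun j _ => hnn j
      calc _ ≤ ∏ j, tau (v j n).natAbs ^ (C + 1) := a1
        _ ≤ X ^ (1 / 100 : ℝ) := a2.trans a3
        _ ≤ _ := by linarith
    · push Not at hz
      obtain ⟨j, hj⟩ := hz
      have a1 : ∑ q ∈ S.filter (fun q => n ≡ bq q [MOD (W * Pr q)]), tau (Pr q) ^ C ≤ B1 :=
        h2 _ ((filter_subset _ _).trans hS)
      have a2 : B1 ≤ ∑ j, (if v j n = 0 then B1 else 0) := by
        refine le_trans ?_ (Finset.single_le_sum (f := fun j => if v j n = 0 then B1 else 0)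
          (fun j _ => hnn j) (mem_univ j))
        simp only [hj, if_true]
        exact le_rfl
      have a3 : 0 ≤ X ^ (1 / 100 : ℝ) := by positivity
      linarith
  have hcard : ∀ j, (((Icc 1 N).filter (fun n => v j n = 0)).card : ℝ) ≤ 1 := by
    intro j
    have : ((Icc 1 N).filter (fun n => v j n = 0)).card ≤ 1 := by
      rw [Finset.card_le_one]
      intro x hx y hy
      rw [mem_filter] at hx hy
      have e1 : (h j).1 * (x : ℤ) = (h j).1 * (y : ℤ) := by
        have := hx.2
        have := hy.2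
        simp only [hv] at *
        linarith
      have := mul_left_cancel₀ (hh j) e1
      exact_mod_cast this
    exact_mod_cast this
  have hlogN : ∀ n ∈ Icc 1 N, ArithmeticFunction.vonMangoldt n ≤ X ^ (1 / 100 : ℝ) := by
    intro n hn
    rw [mem_Icc] at hn
    refine le_trans ?_ h3'
    refine ArithmeticFunction.vonMangoldt_le_log.trans ?_
    apply Real.log_le_log (by exact_mod_cast hn.1)
    exact le_trans (by exact_mod_cast hn.2) hNX
  calc ∑ q ∈ S, tau (Pr q) ^ C * npp N (W * Pr q) (bq q)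
      = ∑ n ∈ (Icc 1 N).filter (fun n => ¬ n.Prime), ArithmeticFunction.vonMangoldt n *
          ∑ q ∈ S.filter (fun q => n ≡ bq q [MOD (W * Pr q)]), tau (Pr q) ^ C := by
        unfold npp
        have e1 : ∀ q ∈ S, tau (Pr q) ^ C * ∑ n ∈ (Icc 1 N).filter
            (fun n => ¬ n.Prime ∧ n ≡ bq q [MOD (W * Pr q)]), ArithmeticFunction.vonMangoldt n =
            ∑ n ∈ (Icc 1 N).filter (fun n => ¬ n.Prime), ArithmeticFunction.vonMangoldt n *
              (if n ≡ bq q [MOD (W * Pr q)] then tau (Pr q) ^ C else 0) := by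
          intro q _
          rw [← filter_filter, sum_filter, mul_sum]
          refine sum_congr rfl fun n _ => ?_
          split_ifs <;> ring
        rw [sum_congr rfl e1, sum_comm]
        refine sum_congr rfl fun n _ => ?_
        rw [← mul_sum, sum_filter]
    _ ≤ ∑ n ∈ (Icc 1 N).filter (fun n => ¬ n.Prime), ArithmeticFunction.vonMangoldt n *
          (X ^ (1 / 100 : ℝ) + ∑ j, (if v j n = 0 then B1 else 0)) := by
        refine sum_le_sum fun n hn => ?_
        exact mul_le_mul_of_nonneg_left (hin n (mem_filter.1 hn).1) ArithmeticFunction.vonMangoldt_nonneg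
    _ = X ^ (1 / 100 : ℝ) * npp N 1 0 + ∑ j, ∑ n ∈ (Icc 1 N).filter (fun n => ¬ n.Prime),
          (if v j n = 0 then ArithmeticFunction.vonMangoldt n * B1 else 0) := by
        have e1 : npp N 1 0 = ∑ n ∈ (Icc 1 N).filter (fun n => ¬ n.Prime), ArithmeticFunction.vonMangoldt n := by
          unfold npp
          congr 1
          ext k
          simp [Nat.modEq_one]
        rw [e1, mul_sum, sum_comm, ← sum_add_distrib]
        refine sum_congr rfl fun n _ => ?_
        rw [mul_add, mul_sum, mul_comm (ArithmeticFunction.vonMangoldt n)]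
        congr 1
        refine sum_congr rfl fun j _ => ?_
        split_ifs <;> ring
    _ ≤ X ^ (1 / 100 : ℝ) * (D * X ^ (1 / 2 : ℝ)) + ∑ _j : Fin K, X ^ (1 / 100 : ℝ) * B1 := by
        apply add_le_add
        · apply mul_le_mul_of_nonneg_left _ (by positivity)
          refine (hnpp N).trans ?_
          apply mul_le_mul_of_nonneg_left _ hD.le
          rw [Real.sqrt_eq_rpow]
          exact Real.rpow_le_rpow (Nat.cast_nonneg _) hNX (by norm_num)
        · refine sum_le_sum fun j _ => ?_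
          calc ∑ n ∈ (Icc 1 N).filter (fun n => ¬ n.Prime),
                (if v j n = 0 then ArithmeticFunction.vonMangoldt n * B1 else 0)
              ≤ ∑ n ∈ Icc 1 N, (if v j n = 0 then ArithmeticFunction.vonMangoldt n * B1 else 0) := by
                apply sum_le_sum_of_subset_of_nonneg (filter_subset _ _)
                intro n _ _
                split_ifs
                · exact mul_nonneg ArithmeticFunction.vonMangoldt_nonneg hB10
                · exact le_rfl
            _ = ∑ n ∈ (Icc 1 N).filter (fun n => v j n = 0), ArithmeticFunction.vonMangoldt n * B1 := by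
                rw [sum_filter]
            _ ≤ ∑ n ∈ (Icc 1 N).filter (fun n => v j n = 0), X ^ (1 / 100 : ℝ) * B1 := by
                refine sum_le_sum fun n hn => ?_
                exact mul_le_mul_of_nonneg_right (hlogN n (mem_filter.1 hn).1) hB10
            _ = (((Icc 1 N).filter (fun n => v j n = 0)).card : ℝ) * (X ^ (1 / 100 : ℝ) * B1) := by
                rw [sum_const, nsmul_eq_mul]
            _ ≤ 1 * (X ^ (1 / 100 : ℝ) * B1) := mul_le_mul_of_nonneg_right (hcard j) (by positivity)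
            _ = _ := one_mul _
    _ ≤ (D + K + 1) * X ^ (6 / 10 : ℝ) := by
        rw [sum_const, card_univ, Fintype.card_fin, nsmul_eq_mul, hB1, ← Real.rpow_add hX0]
        have e1 : X ^ (1 / 100 : ℝ) * (D * X ^ (1 / 2 : ℝ)) = D * X ^ (1 / 100 + 1 / 2 : ℝ) := by
          rw [Real.rpow_add hX0]; ring
        rw [e1]
        have f1 : X ^ (1 / 100 + 1 / 2 : ℝ) ≤ X ^ (6 / 10 : ℝ) :=
          Real.rpow_le_rpow_of_exponent_le hX1 (by norm_num)
        have f2 : X ^ (1 / 100 + (53 / 100 + 1 / 100) : ℝ) ≤ X ^ (6 / 10 : ℝ) :=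
          Real.rpow_le_rpow_of_exponent_le hX1 (by norm_num)
        have f3 : 0 ≤ X ^ (6 / 10 : ℝ) := by positivity
        have g1 := mul_le_mul_of_nonneg_left f1 hD.le
        have g2 := mul_le_mul_of_nonneg_left f2 (Nat.cast_nonneg (α := ℝ) K)
        linarith
    _ ≤ X ^ (1 / 100 : ℝ) * X ^ (6 / 10 : ℝ) := mul_le_mul_of_nonneg_right h4 (by positivity)
    _ ≤ X ^ (9 / 10 : ℝ) := by
        rw [← Real.rpow_add hX0]
        exact Real.rpow_le_rpow_of_exponent_le hX1 (by norm_num)

/-- the mass of the main terms -/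
lemma mass {K : ℕ} (W : ℕ) (hW : 0 < W) (t : Fin K → ℝ) (ht0 : ∀ j, 0 ≤ t j)
    (ht1 : ∑ j, t j ≤ 53 / 100) (C : ℕ) (X : ℝ) (hX : 1 ≤ X) (S : Finset (Fin K → ℕ))
    (hS : S ⊆ Fintype.piFinset (fun j => Icc 1 ⌊X ^ (t j)⌋₊)) (hsf : ∀ q ∈ S, Squarefree (rd W * Pr q)) :
    ∑ q ∈ S, tau (Pr q) ^ C * (1 / (Nat.totient (W * Pr q) : ℝ)) ≤ (1 + Real.log X) ^ (K * 2 ^ (C + 1)) := by
  have hX0 : 0 < X := by linarith
  have hlog0 : 0 ≤ Real.log X := Real.log_nonneg hX
  calc ∑ q ∈ S, tau (Pr q) ^ C * (1 / (Nat.totient (W * Pr q) : ℝ))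
      ≤ ∑ q ∈ S, ∏ j, tau (q j) ^ (C + 1) / (q j : ℝ) := by
        refine sum_le_sum fun q hq => ?_
        have h1 := one_div_totient_le hW (hsf q hq)
        have h2 := mul_le_mul_of_nonneg_left h1 (pow_nonneg (tau_nonneg (Pr q)) C)
        refine h2.trans ?_
        have e : tau (Pr q) ^ C * (tau (Pr q) / (Pr q : ℝ)) = tau (Pr q) ^ (C + 1) / (Pr q : ℝ) := by
          rw [pow_succ]; ring
        rw [e, prod_div_distrib, prod_pow]
        have e2 : (Pr q : ℝ) = ∏ j, (q j : ℝ) := by
          unfold Pr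
          push_cast
          rfl
        rw [e2]
        apply div_le_div_of_nonneg_right _ (prod_nonneg fun j _ => Nat.cast_nonneg _)
        exact pow_le_pow_left₀ (tau_nonneg _) (tau_prod_le _ _) _
    _ ≤ ∑ q ∈ Fintype.piFinset (fun j => Icc 1 ⌊X ^ (t j)⌋₊), ∏ j, tau (q j) ^ (C + 1) / (q j : ℝ) := by
        apply sum_le_sum_of_subset_of_nonneg hS
        intro q _ _
        exact prod_nonneg fun j _ => div_nonneg (pow_nonneg (tau_nonneg _) _) (Nat.cast_nonneg _)
    _ = ∏ j, ∑ n ∈ Icc 1 ⌊X ^ (t j)⌋₊, tau n ^ (C + 1) / (n : ℝ) := by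
        rw [Finset.prod_univ_sum]
    _ ≤ ∏ _j : Fin K, (1 + Real.log X) ^ (2 ^ (C + 1)) := by
        refine Finset.prod_le_prod (fun j _ => sum_nonneg fun n _ =>
          div_nonneg (pow_nonneg (tau_nonneg _) _) (Nat.cast_nonneg _)) fun j _ => ?_
        refine (Pool.Agent.TH935.LD.tau_pow_div (C + 1) ⌊X ^ (t j)⌋₊).trans ?_
        have a1 : Real.log (⌊X ^ (t j)⌋₊ : ℝ) ≤ Real.log X := by
          have b0 : t j ≤ 1 := by
            have : t j ≤ ∑ i, t i := Finset.single_le_sum (fun i _ => ht0 i) (mem_univ j)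
            linarith
          have b1 : (1 : ℝ) ≤ X ^ (t j) := Real.one_le_rpow hX (ht0 j)
          have b2 : 1 ≤ ⌊X ^ (t j)⌋₊ := Nat.le_floor (by exact_mod_cast b1)
          apply Real.log_le_log (by exact_mod_cast b2)
          refine (Nat.floor_le (by linarith)).trans ?_
          calc X ^ (t j) ≤ X ^ (1 : ℝ) := Real.rpow_le_rpow_of_exponent_le hX b0
            _ = X := Real.rpow_one X
        have a2 : 0 ≤ Real.log (⌊X ^ (t j)⌋₊ : ℝ) := Real.log_natCast_nonneg _
        exact pow_le_pow_left₀ (by linarith) (by linarith) _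
    _ = (1 + Real.log X) ^ (K * 2 ^ (C + 1)) := by
        rw [prod_const, card_univ, Fintype.card_fin, ← pow_mul, mul_comm]

/-- prime number theorem -/
lemma pnt (U : ℕ) : ∃ C : ℝ, 0 < C ∧ ∀ X : ℝ, 4 ≤ X → ∀ m : ℕ, 2 ≤ m → m ≤ ⌊X⌋₊ →
    |(primesAP m 1 0 : ℝ) - lis m| ≤ C * (X / Real.log X ^ U) := by
  obtain ⟨C, hC⟩ := Pool.Agent.H442R2.EHI.pnt_err U
  have hev := (isLittleO_log_rpow_rpow_atTop (r := (U : ℝ)) (s := 1 / 2) (by norm_num)).def
    (c := 1) (by norm_num)
  rw [Filter.eventually_atTop] at hev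
  obtain ⟨x0, hx0⟩ := hev
  -- log ^ U ≤ D sqrt for all X ≥ 4
  obtain ⟨D, hD0, hD⟩ : ∃ D : ℝ, 0 < D ∧ ∀ X : ℝ, 4 ≤ X → Real.log X ^ U ≤ D * √X := by
    refine ⟨max 1 (Real.log (max x0 4) ^ U), lt_max_of_lt_left one_pos, fun X hX => ?_⟩
    have hs : 1 ≤ √X := by rw [Real.one_le_sqrt]; linarith
    rcases le_total x0 X with h | h
    · have h1 := hx0 X h
      have hl : 0 ≤ Real.log X := Real.log_nonneg (by linarith)
      rw [Real.rpow_natCast, Real.norm_of_nonneg (by positivity), Real.norm_of_nonneg (by positivity),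
        one_mul, ← Real.sqrt_eq_rpow] at h1
      exact h1.trans (le_mul_of_one_le_left (by linarith) (le_max_left _ _))
    · have hl : 0 ≤ Real.log X := Real.log_nonneg (by linarith)
      have h1 : Real.log X ^ U ≤ Real.log (max x0 4) ^ U := by
        apply pow_le_pow_left₀ hl
        exact Real.log_le_log (by linarith) (h.trans (le_max_left _ _))
      refine (h1.trans (le_max_right 1 _)).trans ?_
      exact le_mul_of_one_le_right (le_trans zero_le_one (le_max_left _ _)) hs
  have hA0 : 0 ≤ |C| / Real.log 2 ^ U := div_nonneg (abs_nonneg _) (pow_nonneg (Real.log_nonneg (by norm_num)) _)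
  refine ⟨(|C| / Real.log 2 ^ U + 1) * D + |C| * 2 ^ U, by positivity, fun X hX m hm hmX => ?_⟩
  have hX0 : 0 < X := by linarith
  have hlX : 0 < Real.log X := Real.log_pos (by linarith)
  have hmX' : (m : ℝ) ≤ X := le_trans (by exact_mod_cast hmX) (Nat.floor_le hX0.le)
  have hm2 : (2 : ℝ) ≤ m := by exact_mod_cast hm
  have h1 := hC m hm
  have e1 : (primesAP m 1 0 : ℝ) = (((Icc 1 m).filter (fun p : ℕ => p.Prime)).card : ℝ) := by
    unfold primesAP
    rw [Nat.floor_natCast]
    congr 2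
    ext k
    simp [Nat.modEq_one]
  rw [e1]
  refine h1.trans ?_
  have hl2 : 0 < Real.log 2 := Real.log_pos (by norm_num)
  have hlm : Real.log 2 ≤ Real.log m := Real.log_le_log (by norm_num) hm2
  rcases le_total (m : ℝ) (√X) with h | h
  · have a1 : C * m / Real.log m ^ U ≤ |C| * √X / Real.log 2 ^ U := by
      calc C * m / Real.log m ^ U ≤ |C| * √X / Real.log m ^ U := by
            apply div_le_div_of_nonneg_right _ (by positivity)
            exact mul_le_mul (le_abs_self C) h (by linarith) (abs_nonneg C)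
        _ ≤ |C| * √X / Real.log 2 ^ U := by
            apply div_le_div_of_nonneg_left (by positivity) (by positivity)
            exact pow_le_pow_left₀ hl2.le hlm _
    have a2 : √X ≤ D * (X / Real.log X ^ U) := by
      rw [← mul_div_assoc, le_div_iff₀ (by positivity)]
      calc √X * Real.log X ^ U ≤ √X * (D * √X) := mul_le_mul_of_nonneg_left (hD X hX) (Real.sqrt_nonneg _)
        _ = D * (√X * √X) := by ring
        _ = D * X := by rw [Real.mul_self_sqrt hX0.le]
    have a3 : 0 ≤ |C| / Real.log 2 ^ U := by positivity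
    have a4 : 0 ≤ X / Real.log X ^ U := by positivity
    calc C * m / Real.log m ^ U ≤ |C| * √X / Real.log 2 ^ U := a1
      _ = |C| / Real.log 2 ^ U * √X := by ring
      _ ≤ |C| / Real.log 2 ^ U * (D * (X / Real.log X ^ U)) := mul_le_mul_of_nonneg_left a2 a3
      _ ≤ ((|C| / Real.log 2 ^ U + 1) * D + |C| * 2 ^ U) * (X / Real.log X ^ U) := by
          have e : |C| / Real.log 2 ^ U * (D * (X / Real.log X ^ U)) =
            (|C| / Real.log 2 ^ U * D) * (X / Real.log X ^ U) := by ring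
          rw [e]
          apply mul_le_mul_of_nonneg_right _ a4
          have : 0 ≤ |C| * 2 ^ U := by positivity
          nlinarith
  · have a1 : Real.log X / 2 ≤ Real.log m := by
      have b1 : Real.log (√X) = Real.log X / 2 := by
        rw [Real.log_sqrt hX0.le]
      rw [← b1]
      exact Real.log_le_log (Real.sqrt_pos.2 hX0) h
    have a2 : C * m / Real.log m ^ U ≤ |C| * X / (Real.log X / 2) ^ U := by
      calc C * m / Real.log m ^ U ≤ |C| * X / Real.log m ^ U := by
            apply div_le_div_of_nonneg_right _ (by positivity)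
            exact mul_le_mul (le_abs_self C) hmX' (by linarith) (abs_nonneg C)
        _ ≤ |C| * X / (Real.log X / 2) ^ U := by
            apply div_le_div_of_nonneg_left (by positivity) (by positivity)
            exact pow_le_pow_left₀ (by linarith) a1 _
    refine a2.trans ?_
    have e : |C| * X / (Real.log X / 2) ^ U = |C| * 2 ^ U * (X / Real.log X ^ U) := by
      rw [div_pow]
      field_simp
    rw [e]
    apply mul_le_mul_of_nonneg_right _ (by positivity)
    have : 0 ≤ (|C| / Real.log 2 ^ U + 1) * D := by positivity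
    linarith

end Pool.Agent.Y826.LD.PB
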