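import Mathlib
import Pool.Agent.Y826.LD.PiB

/-! Project Y826/LD, job LDB (helper93): from `S_SHARP` to the primes, with the modulus `W`. -/

set_option autoImplicit false

open Finset Filter

namespace Pool.Agent.Y826.LD.PC

open Pool.Agent.Y826.Z (Pr tau GoodT)
open Pool.Agent.Y826.ZL (Cd)
open Pool.Agent.Y826.ZG (rd Hyp Cls)
open Pool.Agent.Y826.ZG.Y950 (tau_nonneg one_le_tau tau_prod_le)
open Pool.Agent.Y826.LD.PA (npp npp_nonneg E_le)
open Pool.Agent.Y826.LD.PB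

open Classical in
theorem spiW (hS : S_SHARP) (K : ℕ) (h : Fin K → ℤ × ℤ) (W b : ℕ) (hyp : Hyp h W b)
    (hh : ∀ j, (h j).1 ≠ 0) (t : Fin K → ℝ) (ht0 : ∀ j, 0 ≤ t j) (ht1 : ∑ j, t j ≤ 53 / 100)
    (hG : ∃ δ : ℝ, 0 < δ ∧ GoodT δ t) (bq : (Fin K → ℕ) → ℕ) (hbq : Cls h W b bq) (A C : ℕ) :
    ∀ᶠ X : ℝ in atTop, ∀ Y : (Fin K → ℕ) → ℝ,
      ∑ q ∈ (Fintype.piFinset (fun j => Icc 1 ⌊X ^ (t j)⌋₊)).filter
          (fun q => Squarefree (rd W * Pr q) ∧ 2 ≤ Y q ∧ Y q ≤ X),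
        tau (Pr q) ^ C * |E (Y q) (W * Pr q) (bq q)| ≤ X / (Real.log X) ^ A := by
  set B : ℕ := K * 2 ^ (C + 1) with hB
  obtain ⟨D, hD, hnpp⟩ := npp_all
  obtain ⟨P0, hP0, hpnt⟩ := pnt (A + B + 1)
  have h1 := hS K h W b hyp t ht0 ht1 hG bq hbq (A + 1) C
  have h2 := npp_sum h hh W b t ht1 bq hbq C
  have hl1 := Real.tendsto_log_atTop.eventually_ge_atTop (8 + 4 * P0 * 2 ^ B)
  have e1 := Pool.Agent.H442R2.EHI.FinalOf.ev A (1 / 10) (by norm_num) 8 (by norm_num)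
  have e2 := Pool.Agent.H442R2.EHI.FinalOf.ev (A + B) (1 / 2) (by norm_num) (4 * (2 * D + 4) * 2 ^ B)
    (by positivity)
  filter_upwards [h1, h2, hl1, e1, e2, eventually_ge_atTop 4] with X h1 h2 hl1 e1 e2 hX4 Y
  have hX0 : 0 < X := by linarith
  have hX1 : 1 ≤ X := by linarith
  have hPB : 0 ≤ 4 * P0 * 2 ^ B := by positivity
  have hL : 8 ≤ Real.log X := by linarith
  have hL0 : 0 < Real.log X := by linarith
  set L := Real.log X with hLdef
  set N := ⌊X⌋₊ with hN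
  have hNX : (N : ℝ) ≤ X := Nat.floor_le hX0.le
  set S := (Fintype.piFinset (fun j => Icc 1 ⌊X ^ (t j)⌋₊)).filter
          (fun q => Squarefree (rd W * Pr q) ∧ 2 ≤ Y q ∧ Y q ≤ X) with hSdef
  have hSsub : S ⊆ Fintype.piFinset (fun j => Icc 1 ⌊X ^ (t j)⌋₊) := filter_subset _ _
  have hsf : ∀ q ∈ S, Squarefree (rd W * Pr q) := fun q hq => (mem_filter.1 hq).2.1
  -- the best cut-off
  have hmax : ∀ q : Fin K → ℕ, ∃ m : ℕ, m ≤ N ∧ ∀ m' : ℕ, m' ≤ N →
      |psi m' (W * Pr q) (bq q) - psi m' 1 0 / (Nat.totient (W * Pr q) : ℝ)| ≤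
      |psi m (W * Pr q) (bq q) - psi m 1 0 / (Nat.totient (W * Pr q) : ℝ)| := by
    intro q
    obtain ⟨m, hm, hm2⟩ := Finset.exists_max_image (range (N + 1))
      (fun m : ℕ => |psi m (W * Pr q) (bq q) - psi m 1 0 / (Nat.totient (W * Pr q) : ℝ)|)
      ⟨0, by simp⟩
    refine ⟨m, by rw [mem_range] at hm; omega, fun m' hm' => hm2 m' (by rw [mem_range]; omega)⟩
  choose ms hms1 hms2 using hmax
  have h3 := h1 (fun q => (ms q : ℝ)) (fun q => le_trans (by exact_mod_cast hms1 q) hNX)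
  have h4 := h2 S hSsub hsf
  have h5 := mass W hyp.wpos t ht0 ht1 C X hX1 S hSsub hsf
  have hlog1 : (1 + L) ^ B ≤ 2 ^ B * L ^ B := by
    rw [← mul_pow]
    exact pow_le_pow_left₀ (by linarith) (by linarith) _
  have hnN : npp N 1 0 ≤ D * √X := (hnpp N).trans (by
    apply mul_le_mul_of_nonneg_left _ hD.le
    exact Real.sqrt_le_sqrt hNX)
  set P : ℝ := P0 * (X / L ^ (A + B + 1)) with hP
  have hP' : 0 ≤ P := by positivity
  have hnn := npp_nonneg N 1 0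
  have hterm : ∀ q ∈ S, tau (Pr q) ^ C * |E (Y q) (W * Pr q) (bq q)| ≤
      2 * (tau (Pr q) ^ C * |psi (ms q) (W * Pr q) (bq q) - psi (ms q) 1 0 / (Nat.totient (W * Pr q) : ℝ)|) +
      2 * (tau (Pr q) ^ C * npp N (W * Pr q) (bq q)) +
      (2 * npp N 1 0 + P + 4) * (tau (Pr q) ^ C * (1 / (Nat.totient (W * Pr q) : ℝ))) := by
    intro q hq
    obtain ⟨_, _, hy2, hyX⟩ := mem_filter.1 hq
    have a1 := E_le N (Y q) hy2 (Nat.floor_mono hyX) (W * Pr q) (bq q) _ P (hms2 q)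
      (fun m hm hmN => hpnt X hX4 m hm hmN)
    have a2 := mul_le_mul_of_nonneg_left a1 (pow_nonneg (tau_nonneg (Pr q)) C)
    refine a2.trans (le_of_eq ?_)
    ring
  have hsum := sum_le_sum hterm
  rw [sum_add_distrib, sum_add_distrib, ← mul_sum, ← mul_sum, ← mul_sum] at hsum
  refine hsum.trans ?_
  have h3' : ∑ q ∈ S, tau (Pr q) ^ C *
      |psi (ms q) (W * Pr q) (bq q) - psi (ms q) 1 0 / (Nat.totient (W * Pr q) : ℝ)| ≤ X / L ^ (A + 1) := by
    refine le_trans ?_ h3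
    apply sum_le_sum_of_subset_of_nonneg
    · intro q hq
      rw [mem_filter]
      exact ⟨hSsub hq, hsf q hq⟩
    · intro q _ _
      exact mul_nonneg (pow_nonneg (tau_nonneg _) _) (abs_nonneg _)
  have hXLA : 0 < X / L ^ A := by positivity
  have b1 : 2 * (X / L ^ (A + 1)) ≤ 1 / 4 * (X / L ^ A) := by
    have : X / L ^ (A + 1) = X / L ^ A / L := by rw [pow_succ, div_div]
    rw [this, ← mul_div_assoc, div_le_iff₀ hL0]
    nlinarith
  have b2 : 2 * X ^ (9 / 10 : ℝ) ≤ 1 / 4 * (X / L ^ A) := by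
    have c1 : X ^ (9 / 10 : ℝ) * X ^ (1 / 10 : ℝ) = X := by
      rw [← Real.rpow_add hX0]; norm_num
    have c2 : 0 < X ^ (9 / 10 : ℝ) := by positivity
    rw [← mul_div_assoc, le_div_iff₀ (by positivity)]
    have c3 := mul_le_mul_of_nonneg_left e1 c2.le
    rw [c1] at c3
    linarith
  have hsX : √X * √X = X := Real.mul_self_sqrt hX0.le
  have hs1 : 1 ≤ √X := by rw [Real.one_le_sqrt]; linarith
  have b3 : (2 * npp N 1 0 + 4) * (1 + L) ^ B ≤ 1 / 4 * (X / L ^ A) := by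
    have c0 : 2 * npp N 1 0 + 4 ≤ (2 * D + 4) * √X := by nlinarith
    have c1 : (2 * npp N 1 0 + 4) * (1 + L) ^ B ≤ ((2 * D + 4) * √X) * (2 ^ B * L ^ B) := by
      apply mul_le_mul c0 hlog1 (by positivity) (by positivity)
    refine c1.trans ?_
    rw [← mul_div_assoc, le_div_iff₀ (by positivity)]
    rw [← Real.sqrt_eq_rpow] at e2
    have c2 := mul_le_mul_of_nonneg_left e2 (Real.sqrt_nonneg X)
    rw [hsX] at c2
    have c3 : (2 * D + 4) * √X * (2 ^ B * L ^ B) * L ^ A =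
        1 / 4 * (√X * (4 * (2 * D + 4) * 2 ^ B * L ^ (A + B))) := by rw [pow_add]; ring
    rw [c3]
    linarith
  have b4 : P * (1 + L) ^ B ≤ 1 / 4 * (X / L ^ A) := by
    have c1 : P * (1 + L) ^ B ≤ P * (2 ^ B * L ^ B) := mul_le_mul_of_nonneg_left hlog1 hP'
    refine c1.trans ?_
    have c2 : P * (2 ^ B * L ^ B) = P0 * 2 ^ B * (X / L ^ A) / L := by
      rw [hP]
      have : L ^ (A + B + 1) = L ^ A * L ^ B * L := by ring
      rw [this]
      field_simp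
    rw [c2, div_le_iff₀ hL0]
    have c3 : 4 * P0 * 2 ^ B ≤ L := by linarith
    nlinarith
  have h5' : (2 * npp N 1 0 + P + 4) * ∑ q ∈ S, tau (Pr q) ^ C * (1 / (Nat.totient (W * Pr q) : ℝ)) ≤
      (2 * npp N 1 0 + 4) * (1 + L) ^ B + P * (1 + L) ^ B := by
    refine (mul_le_mul_of_nonneg_left h5 (by linarith)).trans (le_of_eq ?_)
    ring
  linarith

end Pool.Agent.Y826.LD.PC
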