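import Mathlib
import Pool.Agent.Y826.LD.PiC
import Pool.Agent.Y826.ZG.TI

/-! Project Y826/LD, job LDB (helper93): `S_SHARP` implies `S_PI`. -/

set_option autoImplicit false

open Finset Filter

namespace Pool.Agent.Y826.LD

namespace PD

open Pool.Agent.Y826.Z (Pr tau GoodT)
open Pool.Agent.Y826.ZL (Cd)
open Pool.Agent.Y826.ZG (rd Hyp Cls)
open Pool.Agent.Y826.ZG.Y950 (tau_nonneg one_le_tau tau_prod_le tau_mono_dvd)
open Pool.Agent.Y826.LD.PA (primesAP_floor)
open Pool.Agent.Y826.LD.PB (Pr_le box_tau)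

/-- the classes mod `W`, coprime to `W`, which agree with `l` mod `v` -/
def Bs (W v l : ℕ) : Finset ℕ := (range W).filter (fun b => b.Coprime W ∧ b ≡ l [MOD v])

lemma card_Bs (v u l : ℕ) (hv : 0 < v) (hu : 0 < u) (hvu : v.Coprime u) (hl : l.Coprime v) :
    (Bs (v * u) v l).card = Nat.totient u := by
  have ht : Nat.totient u = ((range u).filter (fun b => u.Coprime b)).card := rfl
  rw [ht]
  refine Finset.card_nbij' (fun b => b % u) (fun b' => (Nat.chineseRemainder hvu l b' : ℕ)) ?_ ?_ ?_ ?_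
  · intro b hb
    unfold Bs at hb
    rw [Finset.mem_coe, mem_filter] at hb ⊢
    refine ⟨mem_range.2 (Nat.mod_lt _ hu), ?_⟩
    have h1 : b.Coprime u := hb.2.1.coprime_dvd_right (dvd_mul_left _ _)
    have h2 : u.gcd (b % u) = b.gcd u := by
      rw [Nat.gcd_comm u (b % u), ← Nat.gcd_rec, Nat.gcd_comm]
    show u.gcd (b % u) = 1
    rw [h2]
    exact h1
  · intro b' hb'
    unfold Bs
    rw [Finset.mem_coe, mem_filter] at hb' ⊢
    have hc := (Nat.chineseRemainder hvu l b').2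
    refine ⟨mem_range.2 (Nat.chineseRemainder_lt_mul hvu l b' hv.ne' hu.ne'), ?_, hc.1⟩
    rw [Nat.coprime_mul_iff_right]
    constructor
    · have h1 := hc.1.gcd_eq
      rw [Nat.Coprime] at hl ⊢
      rw [h1]
      exact hl
    · have h1 := hc.2.gcd_eq
      have h2 := hb'.2
      rw [Nat.Coprime] at h2 ⊢
      rw [h1, Nat.gcd_comm]
      exact h2
  · intro b hb
    unfold Bs at hb
    rw [Finset.mem_coe, mem_filter, mem_range] at hb
    have hc := (Nat.chineseRemainder hvu l (b % u)).2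
    have h1 : (Nat.chineseRemainder hvu l (b % u) : ℕ) ≡ b [MOD (v * u)] := by
      rw [← Nat.modEq_and_modEq_iff_modEq_mul hvu]
      exact ⟨hc.1.trans hb.2.2.symm, hc.2.trans (Nat.mod_modEq _ _)⟩
    have h2 := Nat.chineseRemainder_lt_mul hvu l (b % u) hv.ne' hu.ne'
    have h3 : (Nat.chineseRemainder hvu l (b % u) : ℕ) % (v * u) = b % (v * u) := h1
    rw [Nat.mod_eq_of_lt h2, Nat.mod_eq_of_lt hb.1] at h3
    exact h3
  · intro b' hb'
    rw [Finset.mem_coe, mem_filter, mem_range] at hb'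
    have hc := (Nat.chineseRemainder hvu l b').2.2
    have h3 : (Nat.chineseRemainder hvu l b' : ℕ) % u = b' % u := hc
    simp only
    rw [h3, Nat.mod_eq_of_lt hb'.1]

/-- one modulus: splitting into the classes mod `W` -/
lemma split (v u m l : ℕ) (hv : 0 < v) (hu : 0 < u) (hm : 0 < m) (hvu : v.Coprime u)
    (hWm : (v * u).Coprime m) (hl : l.Coprime (v * m)) (c : ℕ → ℕ)
    (hc : ∀ b ∈ Bs (v * u) v l, ∀ n : ℕ, n ≡ c b [MOD (v * u * m)] ↔ n ≡ b [MOD (v * u)] ∧ n ≡ l [MOD m])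
    (y : ℝ) :
    |E y (v * m) l| ≤ ∑ b ∈ Bs (v * u) v l, |E y (v * u * m) (c b)| + ((v * u : ℕ) : ℝ) := by
  classical
  set W := v * u with hW
  have hW0 : 0 < W := Nat.mul_pos hv hu
  have hvm : v.Coprime m := hWm.coprime_dvd_left (dvd_mul_right _ _)
  -- counting
  set T := (Icc 1 ⌊y⌋₊).filter (fun p => p.Prime ∧ p ≡ l [MOD (v * m)]) with hT
  have hdis : ∀ b ∈ Bs W v l, ∀ b' ∈ Bs W v l, b ≠ b' →
      Disjoint ((Icc 1 ⌊y⌋₊).filter (fun p => p.Prime ∧ p ≡ c b [MOD (W * m)]))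
        ((Icc 1 ⌊y⌋₊).filter (fun p => p.Prime ∧ p ≡ c b' [MOD (W * m)])) := by
    intro b hb b' hb' hne
    rw [Finset.disjoint_left]
    intro p hp hp'
    rw [mem_filter] at hp hp'
    have h1 := ((hc b hb p).1 hp.2.2).1
    have h2 := ((hc b' hb' p).1 hp'.2.2).1
    apply hne
    have h3 : b % W = b' % W := (h1.symm.trans h2)
    unfold Bs at hb hb'
    rw [mem_filter, mem_range] at hb hb'
    rwa [Nat.mod_eq_of_lt hb.1, Nat.mod_eq_of_lt hb'.1] at h3
  have hsplit : T.filter (fun p => ¬ p ∣ W) =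
      (Bs W v l).biUnion (fun b => (Icc 1 ⌊y⌋₊).filter (fun p => p.Prime ∧ p ≡ c b [MOD (W * m)])) := by
    ext p
    rw [mem_filter, hT, mem_filter, mem_biUnion]
    constructor
    · rintro ⟨⟨h1, h2, h3⟩, h4⟩
      have h5 : p.Coprime W := (Nat.Prime.coprime_iff_not_dvd h2).2 h4
      have h6 : p % W ∈ Bs W v l := by
        unfold Bs
        rw [mem_filter, mem_range]
        refine ⟨Nat.mod_lt _ hW0, ?_, ?_⟩
        · rw [Nat.Coprime, (Nat.mod_modEq p W).gcd_eq]
          exact h5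
        · have h7 : p % W ≡ p [MOD v] := (Nat.mod_modEq p W).of_dvd (dvd_mul_right _ _)
          exact h7.trans (h3.of_dvd (dvd_mul_right _ _))
      refine ⟨p % W, h6, mem_filter.2 ⟨h1, h2, (hc _ h6 p).2 ⟨(Nat.mod_modEq p W).symm, ?_⟩⟩⟩
      exact h3.of_dvd (dvd_mul_left _ _)
    · rintro ⟨b, hb, h1⟩
      rw [mem_filter] at h1
      have h2 := (hc b hb p).1 h1.2.2
      have hb2 := hb
      unfold Bs at hb2
      rw [mem_filter] at hb2
      refine ⟨⟨h1.1, h1.2.1, ?_⟩, ?_⟩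
      · rw [← Nat.modEq_and_modEq_iff_modEq_mul hvm]
        refine ⟨?_, h2.2⟩
        exact (h2.1.of_dvd (dvd_mul_right _ _)).trans hb2.2.2
      · intro hd
        have h3 : p.Coprime W := by
          rw [Nat.Coprime, h2.1.gcd_eq]
          exact hb2.2.1
        exact ((Nat.Prime.coprime_iff_not_dvd h1.2.1).1 h3) hd
  have hcard : (primesAP y (v * m) l : ℝ) = ∑ b ∈ Bs W v l, (primesAP y (W * m) (c b) : ℝ) +
      ((T.filter (fun p => p ∣ W)).card : ℝ) := by
    have h1 : T.card = (T.filter (fun p => ¬ p ∣ W)).card + (T.filter (fun p => p ∣ W)).card := by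
      rw [add_comm]
      exact (Finset.card_filter_add_card_filter_not (s := T) (fun p => p ∣ W)).symm
    have h2 : (T.filter (fun p => ¬ p ∣ W)).card = ∑ b ∈ Bs W v l, primesAP y (W * m) (c b) := by
      rw [hsplit, Finset.card_biUnion hdis]
      rfl
    have h3 : primesAP y (v * m) l = T.card := rfl
    rw [h3, h1, h2]
    push_cast
    ring
  have hsmall : ((T.filter (fun p => p ∣ W)).card : ℝ) ≤ (W : ℝ) := by
    have h1 : T.filter (fun p => p ∣ W) ⊆ Icc 1 W := by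
      intro p hp
      rw [mem_filter] at hp
      rw [mem_Icc]
      have h2 := (mem_filter.1 hp.1).2.1.pos
      exact ⟨h2, Nat.le_of_dvd hW0 hp.2⟩
    have h2 := Finset.card_le_card h1
    rw [Nat.card_Icc, Nat.add_sub_cancel] at h2
    exact_mod_cast h2
  have hphi : li y / (Nat.totient (v * m) : ℝ) = ∑ _b ∈ Bs W v l, li y / (Nat.totient (W * m) : ℝ) := by
    rw [sum_const, nsmul_eq_mul, hW, card_Bs v u l hv hu hvu (hl.coprime_dvd_right (dvd_mul_right _ _)),
      Nat.totient_mul hvm, Nat.totient_mul (by rw [← hW]; exact hWm), Nat.totient_mul hvu]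
    have a1 : (Nat.totient v : ℝ) ≠ 0 := by exact_mod_cast (Nat.totient_pos.2 hv).ne'
    have a2 : (Nat.totient u : ℝ) ≠ 0 := by exact_mod_cast (Nat.totient_pos.2 hu).ne'
    have a3 : (Nat.totient m : ℝ) ≠ 0 := by exact_mod_cast (Nat.totient_pos.2 hm).ne'
    push_cast
    field_simp
  have hE : E y (v * m) l = ∑ b ∈ Bs W v l, E y (W * m) (c b) + ((T.filter (fun p => p ∣ W)).card : ℝ) := by
    unfold E
    rw [hcard, hphi, sum_sub_distrib]
    ring
  rw [hE]
  refine (abs_add_le _ _).trans ?_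
  apply add_le_add
  · exact Finset.abs_sum_le_sum_abs _ _
  · rw [abs_of_nonneg (Nat.cast_nonneg _)]
    exact hsmall

lemma prime_prod_dvd {K : ℕ} (h : Fin K → ℤ × ℤ) {p : ℕ} (hp : p.Prime)
    (hd : ∃ j, (p : ℤ) ∣ (h j).1 ∨ (p : ℤ) ∣ (h j).2) : p ∣ (∏ j, (h j).1 * (h j).2).natAbs := by
  obtain ⟨j, hj⟩ := hd
  rw [← Int.natCast_dvd]
  refine dvd_trans ?_ (Finset.dvd_prod_of_mem (fun j => (h j).1 * (h j).2) (mem_univ j))
  rcases hj with hj | hj
  · exact dvd_mul_of_dvd_left hj _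
  · exact dvd_mul_of_dvd_right hj _

/-- the part of a tuple coprime to `W` -/
def qs {K : ℕ} (W : ℕ) (q : Fin K → ℕ) : Fin K → ℕ := fun j => q j / (q j).gcd W

/-- the part of a tuple dividing `W` -/
def qw {K : ℕ} (W : ℕ) (q : Fin K → ℕ) : Fin K → ℕ := fun j => (q j).gcd W

lemma qw_mul_qs {K : ℕ} (W : ℕ) (q : Fin K → ℕ) (j : Fin K) : qw W q j * qs W q j = q j :=
  Nat.mul_div_cancel' (Nat.gcd_dvd_left _ _)

lemma Pr_mul {K : ℕ} (W : ℕ) (q : Fin K → ℕ) : Pr (qw W q) * Pr (qs W q) = Pr q := by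
  unfold Pr
  rw [← prod_mul_distrib]
  exact prod_congr rfl fun j _ => qw_mul_qs W q j

lemma pair_cop {K : ℕ} {q : Fin K → ℕ} (hq : Squarefree (Pr q)) {i j : Fin K} (hij : i ≠ j) :
    (q i).Coprime (q j) := by
  have h1 : q i * q j ∣ Pr q := by
    unfold Pr
    rw [← Finset.mul_prod_erase _ _ (Finset.mem_univ i)]
    exact Nat.mul_dvd_mul_left _ (Finset.dvd_prod_of_mem _ (Finset.mem_erase.2 ⟨hij.symm, Finset.mem_univ j⟩))
  exact Nat.coprime_of_squarefree_mul (hq.squarefree_of_dvd h1)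

lemma comp_sf {K : ℕ} {q : Fin K → ℕ} (hq : Squarefree (Pr q)) (j : Fin K) : Squarefree (q j) :=
  hq.squarefree_of_dvd (Finset.dvd_prod_of_mem _ (mem_univ j))

lemma qs_cop {K : ℕ} {W : ℕ} {q : Fin K → ℕ} (hq : Squarefree (Pr q)) (j : Fin K) :
    (qs W q j).Coprime W := by
  have h1 := comp_sf hq j
  have h2 : ((q j).gcd W * qs W q j) = q j := qw_mul_qs W q j
  have h3 : ((q j).gcd W).Coprime (qs W q j) := Nat.coprime_of_squarefree_mul (by rw [h2]; exact h1)
  refine Nat.coprime_of_dvd ?_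
  intro p hp hp1 hp2
  have h4 : p ∣ q j := by
    rw [← h2]
    exact dvd_mul_of_dvd_right hp1 _
  have h5 : p ∣ (q j).gcd W := Nat.dvd_gcd h4 hp2
  have h6 := Nat.dvd_gcd h5 hp1
  rw [h3] at h6
  exact hp.one_lt.ne' (Nat.dvd_one.1 h6)

lemma Pr_qs_cop {K : ℕ} {W : ℕ} {q : Fin K → ℕ} (hq : Squarefree (Pr q)) : (Pr (qs W q)).Coprime W := by
  unfold Pr
  exact Nat.Coprime.prod_left fun j _ => qs_cop hq j

lemma Pr_qw_dvd {K : ℕ} {W : ℕ} {q : Fin K → ℕ} (hq : Squarefree (Pr q)) : Pr (qw W q) ∣ W := by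
  unfold Pr
  apply Finset.prod_dvd_of_isRelPrime
  · intro i _ j _ hij
    rw [Function.onFun]
    rw [← Nat.coprime_iff_isRelPrime]
    exact (pair_cop hq hij).of_dvd (Nat.gcd_dvd_left _ _) (Nat.gcd_dvd_left _ _)
  · intro j _
    exact Nat.gcd_dvd_right _ _

lemma cd_iff {K : ℕ} {h : Fin K → ℤ × ℤ} {q : Fin K → ℕ} (hsf : Squarefree (Pr q))
    (hc : ∀ j, IsCoprime (h j).1 (q j : ℤ)) {l : ℕ} (hl : Cd h q l) (n : ℕ) :
    Cd h q n ↔ n ≡ l [MOD Pr q] := by
  have key : ∀ j, ((q j : ℤ) ∣ (h j).1 * (n : ℤ) + (h j).2 ↔ (q j : ℤ) ∣ (l : ℤ) - n) := by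
    intro j
    have h1 := hl j
    constructor
    · intro h2
      have h3 := dvd_sub h1 h2
      have e : (h j).1 * (l : ℤ) + (h j).2 - ((h j).1 * (n : ℤ) + (h j).2) = (h j).1 * ((l : ℤ) - n) := by ring
      rw [e] at h3
      exact (hc j).symm.dvd_of_dvd_mul_left h3
    · intro h2
      have h3 := dvd_sub h1 (Dvd.dvd.mul_left h2 (h j).1)
      have e : (h j).1 * (l : ℤ) + (h j).2 - (h j).1 * ((l : ℤ) - n) = (h j).1 * (n : ℤ) + (h j).2 := by ring
      rwa [e] at h3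
  rw [Nat.modEq_iff_dvd]
  constructor
  · intro h1
    unfold Pr
    push_cast
    apply Finset.prod_dvd_of_coprime
    · intro i _ j _ hij
      exact Nat.isCoprime_iff_coprime.2 (pair_cop hsf hij)
    · intro j _
      exact (key j).1 (h1 j)
  · intro h1 j
    refine (key j).2 (dvd_trans ?_ h1)
    unfold Pr
    push_cast
    exact Finset.dvd_prod_of_mem (fun j => (q j : ℤ)) (mem_univ j)

end PD

open Pool.Agent.Y826.Z (Pr tau GoodT)
open Pool.Agent.Y826.ZL (Cd)
open Pool.Agent.Y826.ZG (rd Hyp Cls)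
open Pool.Agent.Y826.ZG.Y950 (tau_nonneg one_le_tau tau_prod_le tau_mono_dvd)
open PD

/-- **Project LD, task LDB.** -/
theorem spi (hS : S_SHARP) : S_PI := by
  intro K h hh t ht0 ht1 hG A C
  classical
  set M0 := (∏ j, (h j).1 * (h j).2).natAbs with hM0def
  have hM0 : M0 ≠ 0 := by
    rw [hM0def, Int.natAbs_ne_zero, Finset.prod_ne_zero_iff]
    intro j _
    exact mul_ne_zero (hh j).1 (hh j).2.1
  set W := rd M0 with hWdef
  have hW0 : 0 < W := ZG.rd_pos (Nat.pos_of_ne_zero hM0)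
  have hWsf : Squarefree W := ZG.rd_sqf (Nat.pos_of_ne_zero hM0)
  have hrW : rd W = W := ZG.rd_eq hWsf
  have hndvd : ∀ p : ℕ, p.Prime → ¬ p ∣ W → ∀ j, ¬ (p : ℤ) ∣ (h j).1 ∧ ¬ (p : ℤ) ∣ (h j).2 := by
    intro p hp hpW j
    constructor
    · intro hd
      exact hpW ((ZG.prime_dvd_rd hp).2 (prime_prod_dvd h hp ⟨j, Or.inl hd⟩))
    · intro hd
      exact hpW ((ZG.prime_dvd_rd hp).2 (prime_prod_dvd h hp ⟨j, Or.inr hd⟩))
  have hyp : ∀ b : ℕ, b.Coprime W → Hyp h W b := fun b hb =>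
    ⟨hW0, hb, fun p hp hpW j => (hndvd p hp hpW j).1, fun p hp hpW j => (hndvd p hp hpW j).2⟩
  have hex : ∀ b : ℕ, ∃ bq : (Fin K → ℕ) → ℕ, Cls h W b bq := by
    intro b
    have key : ∀ q : Fin K → ℕ, ∃ r : ℕ, Squarefree (rd W * Pr q) →
        ∀ n : ℕ, (n ≡ r [MOD (W * Pr q)] ↔ n ≡ b [MOD W] ∧ Cd h q n) := by
      intro q
      by_cases hq : Squarefree (rd W * Pr q)
      · obtain ⟨c, hc⟩ := ZG.TIa.crt_full h W b (fun p hp hpW j => (hndvd p hp hpW j).1) q hq
        exact ⟨c, fun _ n => (hc n).symm⟩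
      · exact ⟨0, fun h => absurd h hq⟩
    choose bq hbq using key
    exact ⟨bq, fun q hq n => hbq q hq n⟩
  choose bq hbq using hex
  set BF := (range W).filter (fun b => b.Coprime W) with hBF
  set Ws := Fintype.piFinset (fun _ : Fin K => W.divisors) with hWs
  have hev : ∀ᶠ X : ℝ in atTop, ∀ b ∈ BF, ∀ Y : (Fin K → ℕ) → ℝ,
      ∑ q ∈ (Fintype.piFinset (fun j => Icc 1 ⌊X ^ (t j)⌋₊)).filter
          (fun q => Squarefree (rd W * Pr q) ∧ 2 ≤ Y q ∧ Y q ≤ X),
        tau (Pr q) ^ C * |E (Y q) (W * Pr q) (bq b q)| ≤ X / (Real.log X) ^ (A + 1) := by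
    rw [Filter.eventually_all_finset]
    intro b hb
    exact PC.spiW hS K h W b (hyp b (mem_filter.1 hb).2) (fun j => (hh j).1) t ht0 ht1 hG (bq b) (hbq b) (A + 1) C
  set Cst : ℝ := (Ws.card : ℝ) * (tau W ^ C * ((BF.card : ℝ))) with hCst
  have hCst0 : 0 ≤ Cst := by
    have := tau_nonneg W
    positivity
  have hbt := PB.box_tau t ht1 C (1 / 100) (by norm_num)
  have hl1 := Real.tendsto_log_atTop.eventually_ge_atTop (2 * Cst + 1)
  have hW0' : (0 : ℝ) < W := by exact_mod_cast hW0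
  have e1 := Pool.Agent.H442R2.EHI.FinalOf.ev A (1 / 10) (by norm_num) (2 * W) (by positivity)
  filter_upwards [hev, hbt, hl1, e1, eventually_ge_atTop 4] with X hev hbt hl1 e1 hX4 Y l
  have hX0 : 0 < X := by linarith
  have hX1 : 1 ≤ X := by linarith
  have hL0 : 0 < Real.log X := by linarith
  set T := (Fintype.piFinset (fun j => Icc 1 ⌊X ^ (t j)⌋₊)).filter (fun q => Squarefree (Pr q) ∧ 2 ≤ Y q ∧
      Y q ≤ X ∧ (l q).Coprime (Pr q) ∧ Cd h q (l q)) with hT
  -- the modified sums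
  set F : ℕ → (Fin K → ℕ) → (Fin K → ℕ) → ℝ := fun b w q' =>
    tau (Pr q') ^ C * |E (Y (fun j => w j * q' j)) (W * Pr q') (bq b q')| with hF
  have hF0 : ∀ b w q', 0 ≤ F b w q' := fun b w q' => mul_nonneg (pow_nonneg (tau_nonneg _) _) (abs_nonneg _)
  have hYq : ∀ q : Fin K → ℕ, Y (fun j => qw W q j * qs W q j) = Y q := by
    intro q
    congr 1
    funext j
    exact qw_mul_qs W q j
  have hterm : ∀ q ∈ T, tau (Pr q) ^ C * |E (Y q) (Pr q) (l q)| ≤
      tau W ^ C * ∑ b ∈ BF, F b (qw W q) (qs W q) + W * tau (Pr q) ^ C := by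
    intro q hq
    obtain ⟨hqb, hsf, _, _, hlc, hCd⟩ := mem_filter.1 hq
    obtain ⟨u, hu⟩ := Pr_qw_dvd (W := W) hsf
    have hPr := Pr_mul W q
    have hv0 : 0 < Pr (qw W q) := Nat.pos_of_dvd_of_pos (Pr_qw_dvd hsf) hW0
    have hu0 : 0 < u := by
      rcases Nat.eq_zero_or_pos u with h0 | h0
      · rw [h0, mul_zero] at hu; omega
      · exact h0
    have hm0 : 0 < Pr (qs W q) := by
      rcases Nat.eq_zero_or_pos (Pr (qs W q)) with h0 | h0
      · rw [h0, mul_zero] at hPr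
        rw [← hPr] at hsf
        exact absurd hsf not_squarefree_zero
      · exact h0
    have hvu : (Pr (qw W q)).Coprime u := Nat.coprime_of_squarefree_mul (hu ▸ hWsf)
    have hWm : W.Coprime (Pr (qs W q)) := (Pr_qs_cop hsf).symm
    have hsfm : Squarefree (Pr (qs W q)) := by
      rw [← hPr] at hsf
      exact hsf.of_mul_right
    have hsfW : Squarefree (rd W * Pr (qs W q)) := by
      rw [hrW, Nat.squarefree_mul_iff]
      exact ⟨hWm, hWsf, hsfm⟩
    have hCd' : Cd h (qs W q) (l q) := by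
      intro j
      refine dvd_trans ?_ (hCd j)
      have : qs W q j ∣ q j := ⟨qw W q j, by rw [mul_comm]; exact (qw_mul_qs W q j).symm⟩
      exact_mod_cast this
    have hcop : ∀ j, IsCoprime (h j).1 (qs W q j : ℤ) := fun j =>
      ZG.TIa.slope_cop _ W _ (fun p hp hpW => (hndvd p hp hpW j).1) (qs_cop hsf j).symm
    have hs := split (Pr (qw W q)) u (Pr (qs W q)) (l q) hv0 hu0 hm0 hvu (by rw [← hu]; exact hWm)
      (by rw [hPr]; exact hlc) (fun b => bq b (qs W q)) (by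
        intro b hb n
        rw [← hu]
        rw [hbq b (qs W q) hsfW n, cd_iff hsfm hcop hCd' n]) (Y q)
    rw [← hu, hPr] at hs
    have hs2 : |E (Y q) (Pr q) (l q)| ≤ ∑ b ∈ BF, |E (Y q) (W * Pr (qs W q)) (bq b (qs W q))| + (W : ℝ) := by
      refine hs.trans ?_
      apply add_le_add_left
      apply sum_le_sum_of_subset_of_nonneg
      · intro b hb
        unfold Bs at hb
        rw [mem_filter] at hb
        rw [hBF, mem_filter]
        exact ⟨hb.1, hb.2.1⟩
      · intro b _ _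
        exact abs_nonneg _
    have htau : tau (Pr q) ^ C ≤ tau W ^ C * tau (Pr (qs W q)) ^ C := by
      rw [← mul_pow]
      apply pow_le_pow_left₀ (tau_nonneg _)
      have a1 : tau (Pr q) ≤ tau (Pr (qw W q)) * tau (Pr (qs W q)) := by
        have := tau_prod_le (Finset.univ : Finset (Fin 2)) ![Pr (qw W q), Pr (qs W q)]
        simp only [Fin.prod_univ_two, Matrix.cons_val_zero, Matrix.cons_val_one] at this
        rw [hPr] at this
        exact this
      refine a1.trans ?_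
      apply mul_le_mul_of_nonneg_right _ (tau_nonneg _)
      exact tau_mono_dvd (Pr_qw_dvd hsf) hW0.ne'
    have hnn : 0 ≤ ∑ b ∈ BF, |E (Y q) (W * Pr (qs W q)) (bq b (qs W q))| := sum_nonneg fun _ _ => abs_nonneg _
    calc tau (Pr q) ^ C * |E (Y q) (Pr q) (l q)|
        ≤ tau (Pr q) ^ C * (∑ b ∈ BF, |E (Y q) (W * Pr (qs W q)) (bq b (qs W q))| + (W : ℝ)) :=
          mul_le_mul_of_nonneg_left hs2 (pow_nonneg (tau_nonneg _) _)
      _ = tau (Pr q) ^ C * ∑ b ∈ BF, |E (Y q) (W * Pr (qs W q)) (bq b (qs W q))| + W * tau (Pr q) ^ C := by ring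
      _ ≤ (tau W ^ C * tau (Pr (qs W q)) ^ C) * ∑ b ∈ BF, |E (Y q) (W * Pr (qs W q)) (bq b (qs W q))| +
          W * tau (Pr q) ^ C := by
          have := mul_le_mul_of_nonneg_right htau hnn
          linarith
      _ = tau W ^ C * ∑ b ∈ BF, F b (qw W q) (qs W q) + W * tau (Pr q) ^ C := by
          rw [hF]
          simp only [hYq]
          rw [mul_assoc, mul_sum]
  have hmaps : ∀ q ∈ T, qw W q ∈ Ws := by
    intro q _
    rw [hWs, Fintype.mem_piFinset]
    intro j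
    rw [Nat.mem_divisors]
    exact ⟨Nat.gcd_dvd_right _ _, hW0.ne'⟩
  have hfib : ∀ w ∈ Ws, ∀ b ∈ BF, ∑ q ∈ T.filter (fun q => qw W q = w), F b (qw W q) (qs W q) ≤
      X / (Real.log X) ^ (A + 1) := by
    intro w _ b hb
    have h1 : ∑ q ∈ T.filter (fun q => qw W q = w), F b (qw W q) (qs W q) =
        ∑ q' ∈ (T.filter (fun q => qw W q = w)).image (qs W), F b w q' := by
      rw [sum_image]
      · refine sum_congr rfl fun q hq => ?_
        rw [(mem_filter.1 hq).2]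
      · intro q1 hq1 q2 hq2 he
        have a1 := (mem_filter.1 hq1).2
        have a2 := (mem_filter.1 hq2).2
        funext j
        rw [← qw_mul_qs W q1 j, ← qw_mul_qs W q2 j, a1, a2, he]
    rw [h1]
    refine le_trans ?_ (hev b hb (fun q' => Y (fun j => w j * q' j)))
    apply sum_le_sum_of_subset_of_nonneg
    · intro q' hq'
      rw [mem_image] at hq'
      obtain ⟨q, hq, rfl⟩ := hq'
      obtain ⟨hqT, hqw⟩ := mem_filter.1 hq
      obtain ⟨hqb, hsf, hy1, hy2, _, _⟩ := mem_filter.1 hqT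
      rw [mem_filter, Fintype.mem_piFinset]
      refine ⟨?_, ?_, ?_⟩
      · intro j
        rw [Fintype.mem_piFinset] at hqb
        have h2 := mem_Icc.1 (hqb j)
        rw [mem_Icc]
        constructor
        · exact Nat.div_pos (Nat.le_of_dvd (by omega) (Nat.gcd_dvd_left _ _))
            (Nat.gcd_pos_of_pos_left _ (by omega))
        · exact (Nat.div_le_self _ _).trans h2.2
      · rw [hrW, Nat.squarefree_mul_iff]
        refine ⟨(Pr_qs_cop hsf).symm, hWsf, ?_⟩
        rw [← Pr_mul W q] at hsf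
        exact hsf.of_mul_right
      · rw [← hqw, hYq]
        exact ⟨hy1, hy2⟩
    · intro q' _ _
      exact hF0 b w q'
  have hTsub : T ⊆ Fintype.piFinset (fun j => Icc 1 ⌊X ^ (t j)⌋₊) := filter_subset _ _
  have hmain : ∑ q ∈ T, ∑ b ∈ BF, F b (qw W q) (qs W q) ≤
      (Ws.card : ℝ) * ((BF.card : ℝ) * (X / (Real.log X) ^ (A + 1))) := by
    rw [← Finset.sum_fiberwise_of_maps_to hmaps]
    calc ∑ w ∈ Ws, ∑ q ∈ T.filter (fun q => qw W q = w), ∑ b ∈ BF, F b (qw W q) (qs W q)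
        ≤ ∑ w ∈ Ws, (BF.card : ℝ) * (X / (Real.log X) ^ (A + 1)) := by
          refine sum_le_sum fun w hw => ?_
          rw [sum_comm]
          refine (sum_le_sum fun b hb => hfib w hw b hb).trans (le_of_eq ?_)
          rw [sum_const, nsmul_eq_mul]
      _ = _ := by rw [sum_const, nsmul_eq_mul]
  have hXLA : 0 < X / (Real.log X) ^ A := by positivity
  calc ∑ q ∈ T, tau (Pr q) ^ C * |E (Y q) (Pr q) (l q)|
      ≤ ∑ q ∈ T, (tau W ^ C * ∑ b ∈ BF, F b (qw W q) (qs W q) + W * tau (Pr q) ^ C) := sum_le_sum hterm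
    _ = tau W ^ C * ∑ q ∈ T, ∑ b ∈ BF, F b (qw W q) (qs W q) + W * ∑ q ∈ T, tau (Pr q) ^ C := by
        rw [sum_add_distrib, ← mul_sum, ← mul_sum]
    _ ≤ tau W ^ C * ((Ws.card : ℝ) * ((BF.card : ℝ) * (X / (Real.log X) ^ (A + 1)))) +
        W * X ^ (53 / 100 + 1 / 100 : ℝ) := by
        apply add_le_add
        · exact mul_le_mul_of_nonneg_left hmain (pow_nonneg (tau_nonneg _) _)
        · exact mul_le_mul_of_nonneg_left (hbt T hTsub) hW0'.le
    _ = Cst * (X / (Real.log X) ^ (A + 1)) + W * X ^ (53 / 100 + 1 / 100 : ℝ) := by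
        rw [hCst]; ring
    _ ≤ 1 / 2 * (X / (Real.log X) ^ A) + 1 / 2 * (X / (Real.log X) ^ A) := by
        apply add_le_add
        · have : X / (Real.log X) ^ (A + 1) = X / (Real.log X) ^ A / Real.log X := by rw [pow_succ, div_div]
          rw [this, ← mul_div_assoc, div_le_iff₀ hL0]
          nlinarith
        · have c1 : X ^ (53 / 100 + 1 / 100 : ℝ) * X ^ (1 / 10 : ℝ) ≤ X := by
            rw [← Real.rpow_add hX0]
            calc X ^ (53 / 100 + 1 / 100 + 1 / 10 : ℝ) ≤ X ^ (1 : ℝ) :=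
                  Real.rpow_le_rpow_of_exponent_le hX1 (by norm_num)
              _ = X := Real.rpow_one X
          have c2 : 0 < X ^ (53 / 100 + 1 / 100 : ℝ) := by positivity
          rw [← mul_div_assoc, le_div_iff₀ (by positivity)]
          have c3 := mul_le_mul_of_nonneg_left e1 c2.le
          linarith
    _ = X / (Real.log X) ^ A := by ring

end Pool.Agent.Y826.LD
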