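import Pool.Agent.Y826.LD.Sharp3

/-! Project Y826/LD, job LDA: sharp cut-offs, depending on the modulus. -/

set_option autoImplicit false

open Finset Filter

namespace Pool.Agent.Y826.LD.Sh

open Pool.Agent.H378R2 (EPhi Phi)
open Pool.Agent.Y826.Z (Pr tau GoodT)
open Pool.Agent.Y826.ZG (rd Hyp Cls)
open Pool.Agent.Y826.ZG.Y950 (tau_nonneg one_le_tau)

lemma sum_succ_le (N : ℕ) : ∑ k ∈ range (N + 1), ((k : ℝ) + 1) ≤ ((N : ℝ) + 1) ^ 2 := by
  calc ∑ k ∈ range (N + 1), ((k : ℝ) + 1) ≤ ∑ k ∈ range (N + 1), ((N : ℝ) + 1) := by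
        refine Finset.sum_le_sum fun k hk => ?_
        have : (k : ℝ) ≤ N := by
          have := Finset.mem_range.1 hk
          exact_mod_cast Nat.lt_succ_iff.1 this
        linarith
    _ = ((N : ℝ) + 1) ^ 2 := by rw [sum_const, card_range, nsmul_eq_mul]; push_cast; ring

lemma PP_sum_le {ι : Type*} (T : Finset ι) (wt : ι → ℝ) (hwt : ∀ q ∈ T, 0 ≤ wt q) (m bq : ι → ℕ) (L U : ℝ)
    (hU : ∀ v : ℝ, v ≤ L → ∑ q ∈ T, wt q * |EPhi (Real.exp v) (m q) (bq q)| ≤ U) (N : ℕ)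
    (hN : L + 1 ≤ ((N : ℝ) + 1) / 2) (w : ℝ) (hw : w ≤ L + 1) :
    ∑ q ∈ T, wt q * |PP ⌊3 * Real.exp L⌋₊ (m q) (bq q) w| ≤ ((N : ℝ) + 1) ^ 2 * U := by
  have hU0 : 0 ≤ U := le_trans (Finset.sum_nonneg fun q hq => mul_nonneg (hwt q hq) (abs_nonneg _)) (hU L le_rfl)
  have h1 : ∀ q ∈ T, wt q * |PP ⌊3 * Real.exp L⌋₊ (m q) (bq q) w| ≤
      ∑ k ∈ range (N + 1), ((k : ℝ) + 1) * (wt q * |EPhi (Real.exp (w - 1 - k / 2)) (m q) (bq q)|) := by
    intro q hq
    have h2 := PP_le ⌊3 * Real.exp L⌋₊ (m q) (bq q) N w (hw.trans hN) (by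
      apply Nat.floor_le_floor
      have : Real.exp (w - 1) ≤ Real.exp L := Real.exp_le_exp.2 (by linarith)
      linarith)
    refine (mul_le_mul_of_nonneg_left h2 (hwt q hq)).trans (le_of_eq ?_)
    rw [Finset.mul_sum]
    refine Finset.sum_congr rfl fun k _ => ?_
    ring
  refine (Finset.sum_le_sum h1).trans ?_
  rw [Finset.sum_comm]
  calc ∑ k ∈ range (N + 1), ∑ q ∈ T, ((k : ℝ) + 1) * (wt q * |EPhi (Real.exp (w - 1 - k / 2)) (m q) (bq q)|)
      ≤ ∑ k ∈ range (N + 1), ((k : ℝ) + 1) * U := by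
        refine Finset.sum_le_sum fun k _ => ?_
        rw [← Finset.mul_sum]
        apply mul_le_mul_of_nonneg_left _ (by positivity)
        apply hU
        have : (0 : ℝ) ≤ k := Nat.cast_nonneg k
        linarith
    _ = (∑ k ∈ range (N + 1), ((k : ℝ) + 1)) * U := by rw [Finset.sum_mul]
    _ ≤ ((N : ℝ) + 1) ^ 2 * U := mul_le_mul_of_nonneg_right (sum_succ_le N) hU0

lemma main_ineq {ι : Type*} (T : Finset ι) (wt : ι → ℝ) (hwt : ∀ q ∈ T, 0 ≤ wt q) (m bq : ι → ℕ)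
    (hm : ∀ q ∈ T, 0 < m q) (L η U : ℝ) (hL : 0 ≤ L) (hη : 0 < η) (hη1 : η ≤ 1) (Y : ι → ℝ)
    (hY : ∀ q ∈ T, Y q ≤ Real.exp L)
    (hU : ∀ v : ℝ, v ≤ L → ∑ q ∈ T, wt q * |EPhi (Real.exp v) (m q) (bq q)| ≤ U) (N : ℕ)
    (hN : L + 1 ≤ ((N : ℝ) + 1) / 2) :
    ∑ q ∈ T, wt q * |psi (Y q) (m q) (bq q) - psi (Y q) 1 0 / (Nat.totient (m q) : ℝ)| ≤
      ((⌊L / η⌋₊ : ℝ) + 1) * ((1 / η) * (2 * (((N : ℝ) + 1) ^ 2 * U))) +
        (L + 1) * (6 * η * Real.exp L * ∑ q ∈ T, wt q * (1 / (Nat.totient (m q) : ℝ)) + 3 * ∑ q ∈ T, wt q) := by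
  set N0 := ⌊3 * Real.exp L⌋₊ with hN0
  set I := ⌊L / η⌋₊ with hI
  have hpt : ∀ q ∈ T, |psi (Y q) (m q) (bq q) - psi (Y q) 1 0 / (Nat.totient (m q) : ℝ)| ≤
      ∑ i ∈ range (I + 1), (1 / η) * (|PP N0 (m q) (bq q) (η * (i + 1))| + |PP N0 (m q) (bq q) (η * i)|) +
        (L + 1) * (6 * η * Real.exp L / (Nat.totient (m q) : ℝ) + 3) := by
    intro q hq
    have hnn : ∀ i ∈ range (I + 1),
        0 ≤ (1 / η) * (|PP N0 (m q) (bq q) (η * (i + 1))| + |PP N0 (m q) (bq q) (η * i)|) := by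
      intro i _
      positivity
    rcases lt_or_ge (Y q) 1 with hy | hy
    · have h0 : ⌊Y q⌋₊ = 0 := Nat.floor_eq_zero.2 hy
      unfold psi
      rw [h0]
      simp only [Finset.Icc_eq_empty (show ¬ (1 ≤ 0) by norm_num), Finset.filter_empty, Finset.sum_empty,
        zero_div, sub_zero, abs_zero]
      exact add_nonneg (Finset.sum_nonneg hnn) (by positivity)
    · have hy0 : 0 < Y q := by linarith
      have hlog0 : 0 ≤ Real.log (Y q) := Real.log_nonneg hy
      have hlogL : Real.log (Y q) ≤ L := (Real.log_le_iff_le_exp hy0).2 (hY q hq)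
      set i := ⌊Real.log (Y q) / η⌋₊ with hi
      have hi1 : (i : ℝ) ≤ Real.log (Y q) / η := Nat.floor_le (by positivity)
      have hi2 : Real.log (Y q) / η < i + 1 := Nat.lt_floor_add_one _
      have hi3 : η * i ≤ Real.log (Y q) := by
        rw [le_div_iff₀ hη] at hi1
        linarith
      have hi4 : Real.log (Y q) < η * (i + 1) := by
        rw [div_lt_iff₀ hη] at hi2
        linarith
      have hiI : i ∈ range (I + 1) := by
        rw [mem_range]
        apply Nat.lt_succ_of_le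
        apply Nat.floor_le_floor
        gcongr
      have hN : ⌊Y q⌋₊ ≤ N0 := by
        apply Nat.floor_le_floor
        have := hY q hq
        have := Real.exp_pos L
        linarith
      refine (pointwise N0 (m q) (bq q) (Y q) η hη i hi3 hi4 hy hN).trans ?_
      apply add_le_add
      · exact Finset.single_le_sum hnn hiI
      · exact edge_le N0 (m q) (bq q) (hm q hq) L η hL hη hη1 i (hi3.trans hlogL)
  have h1 : ∑ q ∈ T, wt q * |psi (Y q) (m q) (bq q) - psi (Y q) 1 0 / (Nat.totient (m q) : ℝ)| ≤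
      ∑ q ∈ T, wt q * (∑ i ∈ range (I + 1),
        (1 / η) * (|PP N0 (m q) (bq q) (η * (i + 1))| + |PP N0 (m q) (bq q) (η * i)|) +
        (L + 1) * (6 * η * Real.exp L / (Nat.totient (m q) : ℝ) + 3)) :=
    Finset.sum_le_sum fun q hq => mul_le_mul_of_nonneg_left (hpt q hq) (hwt q hq)
  refine h1.trans ?_
  have h2 : ∑ q ∈ T, wt q * (∑ i ∈ range (I + 1),
        (1 / η) * (|PP N0 (m q) (bq q) (η * (i + 1))| + |PP N0 (m q) (bq q) (η * i)|) +
        (L + 1) * (6 * η * Real.exp L / (Nat.totient (m q) : ℝ) + 3)) =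
      ∑ i ∈ range (I + 1), (1 / η) * (∑ q ∈ T, wt q * |PP N0 (m q) (bq q) (η * (i + 1))| +
        ∑ q ∈ T, wt q * |PP N0 (m q) (bq q) (η * i)|) +
      (L + 1) * (6 * η * Real.exp L * ∑ q ∈ T, wt q * (1 / (Nat.totient (m q) : ℝ)) + 3 * ∑ q ∈ T, wt q) := by
    simp only [mul_add, Finset.sum_add_distrib, Finset.mul_sum]
    rw [Finset.sum_comm, Finset.sum_comm (s := T) (t := range (I + 1))]
    congr 1
    · congr 1
      · refine Finset.sum_congr rfl fun i _ => Finset.sum_congr rfl fun q _ => ?_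
        ring
      · refine Finset.sum_congr rfl fun i _ => Finset.sum_congr rfl fun q _ => ?_
        ring
    · congr 1
      · refine Finset.sum_congr rfl fun q _ => ?_
        ring
      · refine Finset.sum_congr rfl fun q _ => ?_
        ring
  rw [h2]
  apply add_le_add _ le_rfl
  calc ∑ i ∈ range (I + 1), (1 / η) * (∑ q ∈ T, wt q * |PP N0 (m q) (bq q) (η * (i + 1))| +
        ∑ q ∈ T, wt q * |PP N0 (m q) (bq q) (η * i)|)
      ≤ ∑ i ∈ range (I + 1), (1 / η) * (2 * (((N : ℝ) + 1) ^ 2 * U)) := by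
        refine Finset.sum_le_sum fun i hi => ?_
        have hi1 : (i : ℝ) ≤ I := by exact_mod_cast Nat.lt_succ_iff.1 (mem_range.1 hi)
        have hi2 : (I : ℝ) ≤ L / η := Nat.floor_le (by positivity)
        have hi3 : η * i ≤ L := by
          have := hi1.trans hi2
          rw [le_div_iff₀ hη] at this
          linarith
        apply mul_le_mul_of_nonneg_left _ (by positivity)
        have a1 := PP_sum_le T wt hwt m bq L U hU N hN (η * (i + 1)) (by linarith)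
        have a2 := PP_sum_le T wt hwt m bq L U hU N hN (η * i) (by linarith)
        linarith
    _ = ((I : ℝ) + 1) * ((1 / η) * (2 * (((N : ℝ) + 1) ^ 2 * U))) := by
        rw [sum_const, card_range, nsmul_eq_mul]
        push_cast
        ring

end Pool.Agent.Y826.LD.Sh

namespace Pool.Agent.Y826.LD

open Pool.Agent.Y826.LD.Sh
open Pool.Agent.H378R2 (EPhi Phi)
open Pool.Agent.Y826.Z (Pr tau GoodT)
open Pool.Agent.Y826.ZG (rd Hyp Cls)
open Pool.Agent.Y826.ZG.Y950 (tau_nonneg one_le_tau)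

theorem sharp (hZ : Pool.Agent.Y826.ZG.S_ZZ) : S_SHARP := by
  classical
  intro K h W b hyp t ht hs hG bq hbq A C
  set R : ℕ := 2 ^ (K + C + 1) with hR
  set A1 : ℕ := A + R + 2 with hA1
  set A2 : ℕ := 2 * A1 + 3 + A + 1 with hA2
  have hev := Real.tendsto_log_atTop.eventually (ev_exp (53 / 100) (by norm_num) (3 * 2 ^ (R + 1)) (R + 1 + (A + 1)))
  filter_upwards [U_bound hZ K h W b hyp t ht hs hG bq hbq A2 C, hev, eventually_ge_atTop 3,
    Real.tendsto_log_atTop.eventually_ge_atTop (145 + 6 * (2 : ℝ) ^ (R + 1))] with X hU h1 h3 h4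
  intro Y hY
  have hXp : 0 < X := by linarith
  set L := Real.log X with hL
  have hXL : X = Real.exp L := (Real.exp_log hXp).symm
  have hL1 : 1 ≤ L := by
    have : (0 : ℝ) < 2 ^ (R + 1) := by positivity
    linarith
  have hLp : 0 < L := by linarith
  set T := (Fintype.piFinset (fun j => Icc 1 ⌊X ^ (t j)⌋₊)).filter (fun q => Squarefree (rd W * Pr q)) with hT
  have hTsq : ∀ q ∈ T, Squarefree (rd W * Pr q) := fun q hq => (mem_filter.1 hq).2
  have hTle : ∀ q ∈ T, (Pr q : ℝ) ≤ X ^ (53 / 100 : ℝ) := fun q hq =>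
    Pr_le t (by linarith) hs q (mem_filter.1 hq).1
  have hTleX : ∀ q ∈ T, Squarefree (rd W * Pr q) ∧ (Pr q : ℝ) ≤ X := fun q hq =>
    ⟨hTsq q hq, (hTle q hq).trans (by
      calc X ^ (53 / 100 : ℝ) ≤ X ^ (1 : ℝ) := Real.rpow_le_rpow_of_exponent_le (by linarith) (by norm_num)
        _ = X := Real.rpow_one X)⟩
  set η : ℝ := 1 / L ^ A1 with hη
  have hη0 : 0 < η := by positivity
  have hη1 : η ≤ 1 := by
    rw [hη, div_le_one (by positivity)]
    exact one_le_pow₀ hL1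
  set N : ℕ := ⌈2 * L + 2⌉₊ with hN
  have hN1 : 2 * L + 2 ≤ (N : ℝ) := Nat.le_ceil _
  have hN2 : (N : ℝ) < 2 * L + 2 + 1 := Nat.ceil_lt_add_one (by positivity)
  have key := main_ineq T (fun q => tau (Pr q) ^ C) (fun q _ => pow_nonneg (tau_nonneg _) _)
    (fun q => W * Pr q) bq (fun q hq => Nat.mul_pos hyp.wpos (Nat.pos_of_ne_zero ((hTsq q hq).of_mul_right).ne_zero))
    L η (X / L ^ A2) hLp.le hη0 hη1 Y (fun q _ => by rw [← hXL]; exact hY q) hU N (by linarith)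
  beta_reduce at key
  refine key.trans ?_
  have t1 := T1 W C hyp.wpos X h3 T hTleX
  have t2 := T2 W C X h3 T hTleX (X ^ (53 / 100 : ℝ)) hTle (Real.rpow_nonneg hXp.le _)
  rw [← hR, ← hL] at t1 t2
  rw [rpow_eq hXp, ← hL] at t2
  rw [← hXL]
  -- first part
  have p1 : ((⌊L / η⌋₊ : ℝ) + 1) * ((1 / η) * (2 * (((N : ℝ) + 1) ^ 2 * (X / L ^ A2)))) ≤
      144 * (X / L ^ (A + 1)) := by
    have q1 : (⌊L / η⌋₊ : ℝ) + 1 ≤ 2 * L ^ (A1 + 1) := by
      have : (⌊L / η⌋₊ : ℝ) ≤ L / η := Nat.floor_le (by positivity)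
      have h5 : L / η = L ^ (A1 + 1) := by
        rw [hη, div_div_eq_mul_div, div_one, pow_succ' L A1]
      have h6 : (1 : ℝ) ≤ L ^ (A1 + 1) := one_le_pow₀ hL1
      linarith
    have q2 : 1 / η = L ^ A1 := by rw [hη]; field_simp
    have q3 : ((N : ℝ) + 1) ^ 2 ≤ 36 * L ^ 2 := by
      calc ((N : ℝ) + 1) ^ 2 ≤ (6 * L) ^ 2 := pow_le_pow_left₀ (by positivity) (by linarith) 2
        _ = 36 * L ^ 2 := by ring
    rw [q2]
    calc ((⌊L / η⌋₊ : ℝ) + 1) * (L ^ A1 * (2 * (((N : ℝ) + 1) ^ 2 * (X / L ^ A2))))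
        ≤ (2 * L ^ (A1 + 1)) * (L ^ A1 * (2 * ((36 * L ^ 2) * (X / L ^ A2)))) := by
          gcongr
      _ = 144 * (X / L ^ (A + 1)) := by
          rw [hA2]
          field_simp
          ring
  have p2 : (L + 1) * (6 * η * X * ∑ q ∈ T, tau (Pr q) ^ C * (1 / (Nat.totient (W * Pr q) : ℝ)) +
      3 * ∑ q ∈ T, tau (Pr q) ^ C) ≤ 6 * 2 ^ (R + 1) * (X / L ^ (A + 1)) + X / L ^ (A + 1) := by
    have q1 : (L + 1) * (1 + L) ^ R ≤ 2 ^ (R + 1) * L ^ (R + 1) := by
      calc (L + 1) * (1 + L) ^ R ≤ (2 * L) * (2 * L) ^ R := by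
            apply mul_le_mul (by linarith) _ (by positivity) (by positivity)
            exact pow_le_pow_left₀ (by positivity) (by linarith) _
        _ = 2 ^ (R + 1) * L ^ (R + 1) := by rw [← pow_succ', mul_pow]
    calc (L + 1) * (6 * η * X * ∑ q ∈ T, tau (Pr q) ^ C * (1 / (Nat.totient (W * Pr q) : ℝ)) +
          3 * ∑ q ∈ T, tau (Pr q) ^ C)
        ≤ (L + 1) * (6 * η * X * (1 + L) ^ R + 3 * (Real.exp (53 / 100 * L) * (1 + L) ^ R)) := by
          gcongr
      _ = (6 * η * X + 3 * Real.exp (53 / 100 * L)) * ((L + 1) * (1 + L) ^ R) := by ring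
      _ ≤ (6 * η * X + 3 * Real.exp (53 / 100 * L)) * (2 ^ (R + 1) * L ^ (R + 1)) :=
          mul_le_mul_of_nonneg_left q1 (by positivity)
      _ = 6 * 2 ^ (R + 1) * (X * (η * L ^ (R + 1))) + 3 * 2 ^ (R + 1) * L ^ (R + 1) * Real.exp (53 / 100 * L) := by
          ring
      _ ≤ 6 * 2 ^ (R + 1) * (X / L ^ (A + 1)) + X / L ^ (A + 1) := by
          apply add_le_add
          · apply mul_le_mul_of_nonneg_left _ (by positivity)
            rw [div_eq_mul_one_div]
            apply mul_le_mul_of_nonneg_left _ hXp.le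
            apply le_of_eq
            rw [hη, hA1, show A + R + 2 = (R + 1) + (A + 1) by ring, pow_add]
            field_simp
          · rw [le_div_iff₀ (by positivity)]
            calc 3 * 2 ^ (R + 1) * L ^ (R + 1) * Real.exp (53 / 100 * L) * L ^ (A + 1)
                = 3 * 2 ^ (R + 1) * L ^ (R + 1 + (A + 1)) * Real.exp (53 / 100 * L) := by
                  rw [pow_add L (R + 1) (A + 1)]; ring
              _ ≤ Real.exp L := h1
              _ = X := hXL.symm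
  refine (add_le_add p1 p2).trans ?_
  have hfin : 144 * (X / L ^ (A + 1)) + (6 * 2 ^ (R + 1) * (X / L ^ (A + 1)) + X / L ^ (A + 1)) =
      (X / L ^ A) * ((145 + 6 * 2 ^ (R + 1)) / L) := by
    rw [pow_succ L A]
    field_simp
    ring
  rw [hfin]
  calc (X / L ^ A) * ((145 + 6 * 2 ^ (R + 1)) / L) ≤ (X / L ^ A) * 1 := by
        apply mul_le_mul_of_nonneg_left _ (by positivity)
        rw [div_le_one hLp]
        exact h4
    _ = X / L ^ A := mul_one _

end Pool.Agent.Y826.LD
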