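import Mathlib
import Pool.Agent.Y826.ZG.Main
import Pool.Agent.Y826.LD.Sharp
import Pool.Agent.Y826.LD.Pi
import Pool.Agent.Y826.LD.GT
import Pool.Agent.Y826.LD.GT5
import Pool.Agent.Y826.LD.Fin

/-! Project Y826/LD: level of distribution of the primes beyond `1/2`, for residue classes given by fixed linear
forms and for moduli with factors of suitable sizes: unconditional theorems. -/

open Finset Filter

namespace Pool.Agent.Y826.LD

theorem s_sharp : S_SHARP := sharp Pool.Agent.Y826.ZG.s_zz

theorem s_pi : S_PI := spi s_sharp

theorem s_fin : S_FIN := fin s_pi gt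

end Pool.Agent.Y826.LD
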