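import Pool.Agent.Y826.LD.Sharp1

/-! Project Y826/LD, job LDA, part 2: trivial bounds. -/

set_option autoImplicit false

open Finset Filter

namespace Pool.Agent.Y826.LD.Sh

open Pool.Agent.H378R2 (EPhi Phi)
open Pool.Agent.Y826.Z (Pr tau GoodT)
open Pool.Agent.Y826.ZG (rd Hyp Cls)
open Pool.Agent.Y826.ZG.Y950 (tau_nonneg one_le_tau fiber_le one_div_totient_le EPhi_le Phi_le_one Phi_nonneg)

lemma card_ap (Q b M1 M2 : ℕ) (hQ : 0 < Q) (h : M1 ≤ M2) :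
    (((Ioc M1 M2).filter (fun n => n ≡ b [MOD Q])).card : ℝ) ≤ ((M2 : ℝ) - M1) / Q + 1 := by
  have h1 := Nat.Ioc_filter_modEq_card M1 M2 hQ b
  have hQ' : (0 : ℚ) < Q := by exact_mod_cast hQ
  have h2 : ((((Ioc M1 M2).filter (fun n => n ≡ b [MOD Q])).card : ℤ) : ℚ) ≤ ((M2 : ℚ) - M1) / Q + 1 := by
    rw [h1]
    push_cast
    apply max_le
    · have h3 := Int.floor_le (((M2 : ℚ) - b) / Q)
      have h4 := Int.lt_floor_add_one (((M1 : ℚ) - b) / Q)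
      have h5 : ((M2 : ℚ) - b) / Q - ((M1 : ℚ) - b) / Q = ((M2 : ℚ) - M1) / Q := by ring
      linarith
    · have : (0 : ℚ) ≤ (M2 : ℚ) - M1 := by
        have : (M1 : ℚ) ≤ M2 := by exact_mod_cast h
        linarith
      positivity
  have h3 : ((((Ioc M1 M2).filter (fun n => n ≡ b [MOD Q])).card : ℤ) : ℝ) ≤ ((M2 : ℝ) - M1) / Q + 1 := by
    have := (Rat.cast_le (K := ℝ)).2 h2
    push_cast at this
    push_cast
    exact this
  exact_mod_cast h3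

lemma inv_le_tot {Q : ℕ} (hQ : 0 < Q) : 1 / (Q : ℝ) ≤ 1 / (Nat.totient Q : ℝ) := by
  apply one_div_le_one_div_of_le
  · exact_mod_cast Nat.totient_pos.2 hQ
  · exact_mod_cast Nat.totient_le Q

lemma ap_sum (Q b M1 M2 : ℕ) (hQ : 0 < Q) (h : M1 ≤ M2) (B : ℝ) (hB : ∀ n ∈ Ioc M1 M2, Real.log n ≤ B)
    (hB0 : 0 ≤ B) :
    ∑ n ∈ Ioc M1 M2, |aa Q b n| ≤ B * (2 * ((M2 : ℝ) - M1) / (Nat.totient Q : ℝ) + 1) := by
  have hM : (0 : ℝ) ≤ (M2 : ℝ) - M1 := by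
    have : (M1 : ℝ) ≤ M2 := by exact_mod_cast h
    linarith
  have h1 : ∀ n ∈ Ioc M1 M2, |aa Q b n| ≤ (if n ≡ b [MOD Q] then B else 0) + (1 / (Nat.totient Q : ℝ)) * B := by
    intro n hn
    have h2 : ArithmeticFunction.vonMangoldt n ≤ B := ArithmeticFunction.vonMangoldt_le_log.trans (hB n hn)
    have h3 : 0 ≤ ArithmeticFunction.vonMangoldt n := ArithmeticFunction.vonMangoldt_nonneg
    unfold aa
    refine (abs_sub _ _).trans (add_le_add ?_ ?_)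
    · split_ifs
      · rwa [abs_of_nonneg h3]
      · simp
    · rw [abs_of_nonneg (mul_nonneg (by positivity) h3)]
      exact mul_le_mul_of_nonneg_left h2 (by positivity)
  refine (Finset.sum_le_sum h1).trans ?_
  rw [Finset.sum_add_distrib, ← Finset.sum_filter, Finset.sum_const, Finset.sum_const, nsmul_eq_mul, nsmul_eq_mul,
    Nat.card_Ioc, Nat.cast_sub h]
  have h4 := card_ap Q b M1 M2 hQ h
  have h5 := inv_le_tot hQ
  have h6 : ((M2 : ℝ) - M1) / Q ≤ ((M2 : ℝ) - M1) / (Nat.totient Q : ℝ) := by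
    rw [div_eq_mul_one_div, div_eq_mul_one_div _ (Nat.totient Q : ℝ)]
    exact mul_le_mul_of_nonneg_left h5 hM
  calc _ ≤ (((M2 : ℝ) - M1) / (Nat.totient Q : ℝ) + 1) * B + ((M2 : ℝ) - M1) * (1 / (Nat.totient Q : ℝ) * B) := by
        gcongr
        linarith
    _ = _ := by ring

lemma edge_le (N0 Q b : ℕ) (hQ : 0 < Q) (L η : ℝ) (hL : 0 ≤ L) (hη : 0 < η) (hη1 : η ≤ 1) (i : ℕ) (hi : η * i ≤ L) :
    ∑ n ∈ (Icc 1 N0).filter (fun n : ℕ => η * i < Real.log n ∧ Real.log n ≤ η * (i + 1)), |aa Q b n| ≤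
      (L + 1) * (6 * η * Real.exp L / (Nat.totient Q : ℝ) + 3) := by
  set M1 := ⌊Real.exp (η * i)⌋₊ with hM1
  set M2 := ⌊Real.exp (η * (i + 1))⌋₊ with hM2
  have hφ : (1 : ℝ) ≤ (Nat.totient Q : ℝ) := by exact_mod_cast Nat.totient_pos.2 hQ
  have h12 : M1 ≤ M2 := by
    apply Nat.floor_le_floor
    apply Real.exp_le_exp.2
    nlinarith
  have hsub : (Icc 1 N0).filter (fun n : ℕ => η * i < Real.log n ∧ Real.log n ≤ η * (i + 1)) ⊆ Ioc M1 M2 := by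
    intro n hn
    rw [mem_filter, mem_Icc] at hn
    have hn0 : (0 : ℝ) < n := by exact_mod_cast hn.1.1
    rw [mem_Ioc]
    constructor
    · rw [hM1, Nat.floor_lt (Real.exp_pos _).le]
      exact (Real.lt_log_iff_exp_lt hn0).1 hn.2.1
    · rw [hM2]
      apply Nat.le_floor
      exact (Real.log_le_iff_le_exp hn0).1 hn.2.2
  have h1 : ∑ n ∈ (Icc 1 N0).filter (fun n : ℕ => η * i < Real.log n ∧ Real.log n ≤ η * (i + 1)), |aa Q b n| ≤
      ∑ n ∈ Ioc M1 M2, |aa Q b n| := Finset.sum_le_sum_of_subset_of_nonneg hsub fun _ _ _ => abs_nonneg _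
  have h2 := ap_sum Q b M1 M2 hQ h12 (L + 1) (by
    intro n hn
    rw [mem_Ioc] at hn
    have hn0 : (0 : ℝ) < n := by
      have : 0 < n := by omega
      exact_mod_cast this
    have h3 : (n : ℝ) ≤ Real.exp (η * (i + 1)) := (Nat.le_floor_iff (Real.exp_pos _).le).1 hn.2
    have h4 := (Real.log_le_iff_le_exp hn0).2 h3
    nlinarith) (by linarith)
  refine h1.trans (h2.trans ?_)
  apply mul_le_mul_of_nonneg_left _ (by linarith)
  have h3 : (M2 : ℝ) ≤ Real.exp (η * (i + 1)) := Nat.floor_le (Real.exp_pos _).le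
  have h4 : Real.exp (η * i) < M1 + 1 := Nat.lt_floor_add_one _
  have h5 : Real.exp (η * (i + 1)) - Real.exp (η * i) ≤ 3 * η * Real.exp L := by
    have h6 : Real.exp (η * i) = Real.exp (η * (i + 1)) * Real.exp (-η) := by
      rw [← Real.exp_add]; congr 1; ring
    have h7 : 1 - η ≤ Real.exp (-η) := by
      have := Real.add_one_le_exp (-η)
      linarith
    have h8 : Real.exp (η * (i + 1)) ≤ 3 * Real.exp L := by
      calc Real.exp (η * (i + 1)) ≤ Real.exp (1 + L) := Real.exp_le_exp.2 (by nlinarith)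
        _ = Real.exp 1 * Real.exp L := Real.exp_add _ _
        _ ≤ 3 * Real.exp L := by
            apply mul_le_mul_of_nonneg_right _ (Real.exp_pos _).le
            have := Real.exp_one_lt_d9
            linarith
    rw [h6]
    have h9 := Real.exp_pos (η * (i + 1))
    nlinarith
  have h6 : (M2 : ℝ) - M1 ≤ 3 * η * Real.exp L + 1 := by linarith
  have h7 : 2 * ((M2 : ℝ) - M1) / (Nat.totient Q : ℝ) ≤ 2 * (3 * η * Real.exp L + 1) / (Nat.totient Q : ℝ) := by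
    gcongr
  have h8 : 2 * (3 * η * Real.exp L + 1) / (Nat.totient Q : ℝ) ≤
      6 * η * Real.exp L / (Nat.totient Q : ℝ) + 2 := by
    rw [div_add' _ _ _ (by linarith)]
    gcongr
    linarith
  linarith

lemma EPhi_triv (v L : ℝ) (Q b : ℕ) (hQ : 0 < Q) (hvL : v ≤ L) (hL : 0 ≤ L) :
    |EPhi (Real.exp v) Q b| ≤ (L + 2) * (6 * Real.exp v / (Nat.totient Q : ℝ) + 1) := by
  have h0 := EPhi_eq v Q b ⌊3 * Real.exp v⌋₊ le_rfl
  rw [h0]
  have h1 : Icc 1 ⌊3 * Real.exp v⌋₊ = Ioc 0 ⌊3 * Real.exp v⌋₊ := by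
    ext n; simp [Nat.lt_iff_add_one_le]
  rw [h1]
  refine (Finset.abs_sum_le_sum_abs _ _).trans ?_
  have h2 : ∑ n ∈ Ioc 0 ⌊3 * Real.exp v⌋₊, |aa Q b n * tent (Real.log n - v)| ≤
      ∑ n ∈ Ioc 0 ⌊3 * Real.exp v⌋₊, |aa Q b n| := by
    refine Finset.sum_le_sum fun n _ => ?_
    rw [abs_mul]
    apply mul_le_of_le_one_right (abs_nonneg _)
    unfold tent
    rw [abs_of_nonneg (le_max_left _ _)]
    apply max_le (by norm_num)
    have := abs_nonneg (Real.log n - v - 1 / 2)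
    linarith
  refine h2.trans ((ap_sum Q b 0 _ hQ (Nat.zero_le _) (L + 2) ?_ (by linarith)).trans ?_)
  · intro n hn
    rw [mem_Ioc] at hn
    have hn0 : (0 : ℝ) < n := by exact_mod_cast hn.1
    have h3 : (n : ℝ) ≤ 3 * Real.exp v := (Nat.le_floor_iff (by positivity)).1 hn.2
    have h4 : Real.log n ≤ Real.log (3 * Real.exp v) := Real.log_le_log hn0 h3
    rw [Real.log_mul (by norm_num) (Real.exp_pos v).ne', Real.log_exp] at h4
    have h5 : Real.log 3 ≤ 2 := by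
      have := Real.log_le_sub_one_of_pos (show (0 : ℝ) < 3 by norm_num)
      linarith
    linarith
  · apply mul_le_mul_of_nonneg_left _ (by linarith)
    have h3 : ((⌊3 * Real.exp v⌋₊ : ℕ) : ℝ) ≤ 3 * Real.exp v := Nat.floor_le (by positivity)
    have hφ : (0 : ℝ) < (Nat.totient Q : ℝ) := by exact_mod_cast Nat.totient_pos.2 hQ
    have : 2 * (((⌊3 * Real.exp v⌋₊ : ℕ) : ℝ) - ((0 : ℕ) : ℝ)) / (Nat.totient Q : ℝ) ≤
        6 * Real.exp v / (Nat.totient Q : ℝ) := by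
      apply div_le_div_of_nonneg_right _ hφ.le
      push_cast
      linarith
    linarith

/-- the basic sum over tuples -/
lemma T0 {K : ℕ} (W C : ℕ) (X : ℝ) (hX : 3 ≤ X) (T : Finset (Fin K → ℕ))
    (hT : ∀ q ∈ T, Squarefree (rd W * Pr q) ∧ (Pr q : ℝ) ≤ X) :
    ∑ q ∈ T, tau (Pr q) ^ (C + 1) / (Pr q : ℝ) ≤ (1 + Real.log X) ^ (2 ^ (K + C + 1)) := by
  have hXp : 0 < X := by linarith
  have h2 : ∑ q ∈ T, (tau (Pr q) ^ (C + 1) / (Pr q : ℝ)) ≤
      ∑ m ∈ Icc 1 ⌊X⌋₊, tau m ^ K * (tau m ^ (C + 1) / (m : ℝ)) := by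
    apply fiber_le T (Icc 1 ⌊X⌋₊) (fun m hm => by rw [mem_Icc] at hm; omega) _
      (fun m => tau m ^ (C + 1) / (m : ℝ))
      (fun m => div_nonneg (pow_nonneg (tau_nonneg _) _) (Nat.cast_nonneg _))
    intro q hq
    rw [mem_Icc]
    have h3 : Pr q ≠ 0 := ((hT q hq).1.of_mul_right).ne_zero
    exact ⟨Nat.one_le_iff_ne_zero.2 h3, Nat.le_floor (hT q hq).2⟩
  refine h2.trans ?_
  calc ∑ m ∈ Icc 1 ⌊X⌋₊, tau m ^ K * (tau m ^ (C + 1) / (m : ℝ))
      = ∑ m ∈ Icc 1 ⌊X⌋₊, tau m ^ (K + C + 1) / (m : ℝ) := by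
        refine Finset.sum_congr rfl fun m _ => ?_
        rw [mul_div_assoc', ← pow_add]
        rfl
    _ ≤ (1 + Real.log (⌊X⌋₊ : ℝ)) ^ (2 ^ (K + C + 1)) := W37.RK.sum_card_pow_div (K + C + 1) ⌊X⌋₊
    _ ≤ (1 + Real.log X) ^ (2 ^ (K + C + 1)) := by
        have h5 : (1 : ℝ) ≤ (⌊X⌋₊ : ℝ) := by
          exact_mod_cast Nat.le_floor (by push_cast; linarith)
        apply pow_le_pow_left₀
        · have := Real.log_nonneg h5
          linarith
        · have := Real.log_le_log (by linarith) (Nat.floor_le hXp.le)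
          linarith

/-- sum of the reciprocals of the totients -/
lemma T1 {K : ℕ} (W C : ℕ) (hW : 0 < W) (X : ℝ) (hX : 3 ≤ X) (T : Finset (Fin K → ℕ))
    (hT : ∀ q ∈ T, Squarefree (rd W * Pr q) ∧ (Pr q : ℝ) ≤ X) :
    ∑ q ∈ T, tau (Pr q) ^ C * (1 / (Nat.totient (W * Pr q) : ℝ)) ≤ (1 + Real.log X) ^ (2 ^ (K + C + 1)) := by
  refine le_trans (Finset.sum_le_sum fun q hq => ?_) (T0 W C X hX T hT)
  have := one_div_totient_le hW (hT q hq).1
  calc tau (Pr q) ^ C * (1 / (Nat.totient (W * Pr q) : ℝ))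
      ≤ tau (Pr q) ^ C * (tau (Pr q) / (Pr q : ℝ)) :=
        mul_le_mul_of_nonneg_left this (pow_nonneg (tau_nonneg _) _)
    _ = tau (Pr q) ^ (C + 1) / (Pr q : ℝ) := by rw [pow_succ]; ring

/-- number of the tuples, with weights -/
lemma T2 {K : ℕ} (W C : ℕ) (X : ℝ) (hX : 3 ≤ X) (T : Finset (Fin K → ℕ))
    (hT : ∀ q ∈ T, Squarefree (rd W * Pr q) ∧ (Pr q : ℝ) ≤ X) (Z : ℝ) (hZ : ∀ q ∈ T, (Pr q : ℝ) ≤ Z) (hZ0 : 0 ≤ Z) :
    ∑ q ∈ T, tau (Pr q) ^ C ≤ Z * (1 + Real.log X) ^ (2 ^ (K + C + 1)) := by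
  refine le_trans (Finset.sum_le_sum fun q hq => ?_) (le_trans (le_of_eq (Finset.mul_sum T
    (fun q => tau (Pr q) ^ (C + 1) / (Pr q : ℝ)) Z).symm) (mul_le_mul_of_nonneg_left (T0 W C X hX T hT) hZ0))
  have h3 : Pr q ≠ 0 := ((hT q hq).1.of_mul_right).ne_zero
  have h4 : (0 : ℝ) < Pr q := by exact_mod_cast Nat.pos_of_ne_zero h3
  have h5 := one_le_tau h3
  have h6 : tau (Pr q) ^ C ≤ tau (Pr q) ^ (C + 1) := pow_le_pow_right₀ h5 (Nat.le_succ C)
  rw [← mul_div_assoc, le_div_iff₀ h4, mul_comm]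
  exact mul_le_mul (hZ q hq) h6 (pow_nonneg (tau_nonneg _) _) hZ0

end Pool.Agent.Y826.LD.Sh
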