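import Pool.Agent.Y826.LD.Defs
import Pool.Agent.Y826.ZG.Y950.ZZ3

/-! Project Y826/LD, job LDA, part 1: inversion of the tent weight, the pointwise bound. -/

set_option autoImplicit false

open Finset Filter

namespace Pool.Agent.Y826.LD.Sh

open Pool.Agent.H378R2 (EPhi Phi)

/-- positive part -/
noncomputable def rp (x : ℝ) : ℝ := max 0 x

/-- the tent -/
noncomputable def tent (u : ℝ) : ℝ := max 0 (1 / 2 - |u - 1 / 2|)

lemma tent_eq (u : ℝ) : tent u = rp (-u) - 2 * rp (1 / 2 - u) + rp (1 - u) := by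
  unfold tent rp
  rcases le_total u 0 with h0 | h0
  · rw [abs_of_nonpos (by linarith), max_eq_left (by linarith), max_eq_right (by linarith),
      max_eq_right (by linarith), max_eq_right (by linarith)]
    ring
  · rcases le_total u (1 / 2) with h1 | h1
    · rw [abs_of_nonpos (by linarith), max_eq_right (by linarith), max_eq_left (by linarith),
        max_eq_right (by linarith), max_eq_right (by linarith)]
      ring
    · rcases le_total u 1 with h2 | h2
      · rw [abs_of_nonneg (by linarith), max_eq_right (by linarith), max_eq_left (by linarith),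
          max_eq_left (by linarith), max_eq_right (by linarith)]
        ring
      · rw [abs_of_nonneg (by linarith), max_eq_left (by linarith), max_eq_left (by linarith),
          max_eq_left (by linarith), max_eq_left (by linarith)]
        ring

lemma inv_aux (r : ℕ → ℝ) (N : ℕ) :
    ∑ k ∈ range (N + 1), ((k : ℝ) + 1) * (r (k + 2) - 2 * r (k + 1) + r k) =
      r 0 - (N + 2) * r (N + 1) + (N + 1) * r (N + 2) := by
  induction N with
  | zero => simp; ring
  | succ N ih =>
    rw [sum_range_succ, ih]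
    push_cast
    ring

lemma inv (s : ℝ) (N : ℕ) (h : s ≤ ((N : ℝ) + 1) / 2) :
    rp s = ∑ k ∈ range (N + 1), ((k : ℝ) + 1) * tent (1 + k / 2 - s) := by
  have h1 := inv_aux (fun j => rp (s - j / 2)) N
  have h2 : ∀ k ∈ range (N + 1), ((k : ℝ) + 1) * tent (1 + k / 2 - s) =
      ((k : ℝ) + 1) * (rp (s - ((k + 2 : ℕ) : ℝ) / 2) - 2 * rp (s - ((k + 1 : ℕ) : ℝ) / 2) + rp (s - (k : ℝ) / 2)) := by
    intro k _
    rw [tent_eq]
    push_cast
    rw [show -(1 + (k : ℝ) / 2 - s) = s - (k + 2) / 2 by ring,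
      show 1 / 2 - (1 + (k : ℝ) / 2 - s) = s - (k + 1) / 2 by ring,
      show 1 - (1 + (k : ℝ) / 2 - s) = s - k / 2 by ring]
  rw [Finset.sum_congr rfl h2, h1]
  have h3 : rp (s - ((N + 1 : ℕ) : ℝ) / 2) = 0 := by
    unfold rp
    apply max_eq_left
    push_cast
    linarith
  have h4 : rp (s - ((N + 2 : ℕ) : ℝ) / 2) = 0 := by
    unfold rp
    apply max_eq_left
    push_cast
    linarith
  simp only [h3, h4]
  simp

/-- the coefficients -/
noncomputable def aa (Q b n : ℕ) : ℝ :=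
  (if n ≡ b [MOD Q] then ArithmeticFunction.vonMangoldt n else 0) -
    (1 / (Nat.totient Q : ℝ)) * ArithmeticFunction.vonMangoldt n

lemma Phi_eq (n : ℕ) (hn : 1 ≤ n) (v : ℝ) : Phi (n / Real.exp v) = tent (Real.log n - v) := by
  unfold Phi tent
  rw [Real.log_div (by positivity) (Real.exp_pos v).ne', Real.log_exp]

lemma Phi_big {n : ℕ} {v : ℝ} (h : ⌊3 * Real.exp v⌋₊ < n) : tent (Real.log n - v) = 0 := by
  have h1 : 3 * Real.exp v < n := (Nat.floor_lt (by positivity)).1 h
  have h2 : Real.log (3 * Real.exp v) < Real.log n := Real.log_lt_log (by positivity) h1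
  rw [Real.log_mul (by norm_num) (Real.exp_pos v).ne', Real.log_exp] at h2
  have h3 : (1 : ℝ) ≤ Real.log 3 := by
    rw [Real.le_log_iff_exp_le (by norm_num)]
    have := Real.exp_one_lt_d9
    linarith
  unfold tent
  apply max_eq_left
  rw [abs_of_nonneg (by linarith)]
  linarith

lemma EPhi_eq (v : ℝ) (Q b N0 : ℕ) (h : ⌊3 * Real.exp v⌋₊ ≤ N0) :
    EPhi (Real.exp v) Q b = ∑ n ∈ Icc 1 N0, aa Q b n * tent (Real.log n - v) := by
  have h1 : ∑ n ∈ Icc 1 N0, aa Q b n * tent (Real.log n - v) =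
      ∑ n ∈ Icc 1 ⌊3 * Real.exp v⌋₊, aa Q b n * tent (Real.log n - v) := by
    symm
    apply Finset.sum_subset (Finset.Icc_subset_Icc_right h)
    intro n hn hn2
    rw [mem_Icc] at hn
    rw [mem_Icc, not_and, not_le] at hn2
    rw [Phi_big (hn2 hn.1), mul_zero]
  rw [h1]
  unfold EPhi
  rw [Finset.sum_filter, Finset.mul_sum, ← Finset.sum_sub_distrib]
  refine Finset.sum_congr rfl fun n hn => ?_
  rw [mem_Icc] at hn
  rw [← Phi_eq n hn.1 v]
  unfold aa
  split_ifs <;> ring

/-- the Riesz mean -/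
noncomputable def PP (N0 Q b : ℕ) (w : ℝ) : ℝ := ∑ n ∈ Icc 1 N0, aa Q b n * rp (w - Real.log n)

lemma PP_eq (N0 Q b N : ℕ) (w : ℝ) (hw : w ≤ ((N : ℝ) + 1) / 2) (h0 : ⌊3 * Real.exp (w - 1)⌋₊ ≤ N0) :
    PP N0 Q b w = ∑ k ∈ range (N + 1), ((k : ℝ) + 1) * EPhi (Real.exp (w - 1 - k / 2)) Q b := by
  have h1 : ∀ k ∈ range (N + 1), ((k : ℝ) + 1) * EPhi (Real.exp (w - 1 - k / 2)) Q b =
      ∑ n ∈ Icc 1 N0, aa Q b n * (((k : ℝ) + 1) * tent (1 + k / 2 - (w - Real.log n))) := by
    intro k _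
    rw [EPhi_eq _ Q b N0, Finset.mul_sum]
    · refine Finset.sum_congr rfl fun n _ => ?_
      rw [show Real.log n - (w - 1 - (k : ℝ) / 2) = 1 + k / 2 - (w - Real.log n) by ring]
      ring
    · refine le_trans (Nat.floor_le_floor ?_) h0
      have : Real.exp (w - 1 - k / 2) ≤ Real.exp (w - 1) := by
        apply Real.exp_le_exp.2
        have : (0 : ℝ) ≤ k := Nat.cast_nonneg k
        linarith
      linarith
  rw [Finset.sum_congr rfl h1, Finset.sum_comm]
  unfold PP
  refine Finset.sum_congr rfl fun n hn => ?_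
  rw [← Finset.mul_sum, ← inv]
  rw [mem_Icc] at hn
  have : 0 ≤ Real.log (n : ℝ) := Real.log_nonneg (by exact_mod_cast hn.1)
  linarith

lemma PP_le (N0 Q b N : ℕ) (w : ℝ) (hw : w ≤ ((N : ℝ) + 1) / 2) (h0 : ⌊3 * Real.exp (w - 1)⌋₊ ≤ N0) :
    |PP N0 Q b w| ≤ ∑ k ∈ range (N + 1), ((k : ℝ) + 1) * |EPhi (Real.exp (w - 1 - k / 2)) Q b| := by
  rw [PP_eq N0 Q b N w hw h0]
  refine (Finset.abs_sum_le_sum_abs _ _).trans (le_of_eq (Finset.sum_congr rfl fun k _ => ?_))
  rw [abs_mul, abs_of_nonneg (by positivity)]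

/-- the discrepancy with a sharp cut-off -/
lemma GG_eq (y : ℝ) (hy : 0 ≤ y) (Q b N0 : ℕ) (h : ⌊y⌋₊ ≤ N0) :
    psi y Q b - psi y 1 0 / (Nat.totient Q : ℝ) =
      ∑ n ∈ Icc 1 N0, aa Q b n * (if (n : ℝ) ≤ y then 1 else 0) := by
  have h1 : ∑ n ∈ Icc 1 N0, aa Q b n * (if (n : ℝ) ≤ y then 1 else 0) = ∑ n ∈ Icc 1 ⌊y⌋₊, aa Q b n := by
    symm
    have : ∀ n ∈ Icc 1 ⌊y⌋₊, aa Q b n = aa Q b n * (if (n : ℝ) ≤ y then 1 else 0) := by
      intro n hn
      rw [mem_Icc] at hn
      rw [if_pos ((Nat.le_floor_iff hy).1 hn.2), mul_one]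
    rw [Finset.sum_congr rfl this]
    apply Finset.sum_subset (Finset.Icc_subset_Icc_right h)
    intro n hn hn2
    rw [mem_Icc] at hn
    rw [mem_Icc, not_and] at hn2
    rw [if_neg, mul_zero]
    intro h2
    exact hn2 hn.1 ((Nat.le_floor_iff hy).2 h2)
  rw [h1]
  unfold psi aa
  rw [Finset.sum_filter, Finset.sum_filter, Finset.sum_sub_distrib, ← Finset.mul_sum]
  congr 1
  rw [div_eq_inv_mul, one_div]
  congr 1
  refine Finset.sum_congr rfl fun n _ => ?_
  rw [if_pos (Nat.modEq_one)]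

/-- the pointwise bound -/
lemma pointwise (N0 Q b : ℕ) (y η : ℝ) (hη : 0 < η) (i : ℕ) (h1 : η * i ≤ Real.log y)
    (h2 : Real.log y < η * (i + 1)) (hy : 1 ≤ y) (hN : ⌊y⌋₊ ≤ N0) :
    |psi y Q b - psi y 1 0 / (Nat.totient Q : ℝ)| ≤
      (1 / η) * (|PP N0 Q b (η * (i + 1))| + |PP N0 Q b (η * i)|) +
        ∑ n ∈ (Icc 1 N0).filter (fun n : ℕ => η * i < Real.log n ∧ Real.log n ≤ η * (i + 1)), |aa Q b n| := by
  have hy0 : 0 < y := by linarith
  have key : psi y Q b - psi y 1 0 / (Nat.totient Q : ℝ) =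
      (1 / η) * (PP N0 Q b (η * (i + 1)) - PP N0 Q b (η * i)) +
      ∑ n ∈ Icc 1 N0, aa Q b n * ((if (n : ℝ) ≤ y then 1 else 0) -
        (1 / η) * (rp (η * (i + 1) - Real.log n) - rp (η * i - Real.log n))) := by
    rw [GG_eq y hy0.le Q b N0 hN]
    unfold PP
    rw [← Finset.sum_sub_distrib, Finset.mul_sum, ← Finset.sum_add_distrib]
    refine Finset.sum_congr rfl fun n _ => ?_
    ring
  have edge : |∑ n ∈ Icc 1 N0, aa Q b n * ((if (n : ℝ) ≤ y then 1 else 0) -
        (1 / η) * (rp (η * (i + 1) - Real.log n) - rp (η * i - Real.log n)))| ≤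
      ∑ n ∈ (Icc 1 N0).filter (fun n : ℕ => η * i < Real.log n ∧ Real.log n ≤ η * (i + 1)), |aa Q b n| := by
    rw [Finset.sum_filter]
    refine (Finset.abs_sum_le_sum_abs _ _).trans (Finset.sum_le_sum fun n hn => ?_)
    rw [mem_Icc] at hn
    have hn0 : (0 : ℝ) < n := by exact_mod_cast hn.1
    have hηi : η * (i + 1) = η * i + η := by ring
    rcases le_or_gt (Real.log n) (η * i) with h3 | h3
    · have h4 : (n : ℝ) ≤ y := (Real.log_le_log_iff hn0 hy0).1 (h3.trans h1)
      rw [if_pos h4, if_neg (by intro h; linarith [h.1])]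
      unfold rp
      rw [max_eq_right (by linarith), max_eq_right (by linarith)]
      rw [show (1 : ℝ) - 1 / η * (η * (i + 1) - Real.log n - (η * i - Real.log n)) = 0 by
        field_simp; ring]
      simp
    · rcases le_or_gt (Real.log n) (η * (i + 1)) with h5 | h5
      · have hc : η * i < Real.log n ∧ Real.log n ≤ η * (i + 1) := ⟨h3, h5⟩
        rw [if_pos hc, abs_mul]
        apply mul_le_of_le_one_right (abs_nonneg _)
        unfold rp
        rw [max_eq_right (by linarith), max_eq_left (by linarith), sub_zero]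
        have h6 : 0 ≤ 1 / η * (η * (i + 1) - Real.log n) := by
          apply mul_nonneg (by positivity); linarith
        have h7 : 1 / η * (η * (i + 1) - Real.log n) ≤ 1 := by
          rw [one_div, inv_mul_le_iff₀ hη]; linarith
        rw [abs_le]
        split_ifs <;> constructor <;> linarith
      · have h4 : ¬ (n : ℝ) ≤ y := by
          intro h
          have := Real.log_le_log hn0 h
          linarith
        rw [if_neg h4, if_neg (by intro h; linarith [h.2])]
        unfold rp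
        rw [max_eq_left (by linarith), max_eq_left (by linarith)]
        simp
  rw [key]
  refine (abs_add_le _ _).trans (add_le_add ?_ edge)
  rw [abs_mul, abs_of_pos (by positivity : 0 < 1 / η)]
  apply mul_le_mul_of_nonneg_left _ (by positivity)
  exact abs_sub _ _

end Pool.Agent.Y826.LD.Sh
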