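import Pool.Agent.Y826.LD.Sharp2

/-! Project Y826/LD, job LDA, part 3: all the scales; the combination of the pieces. -/

set_option autoImplicit false

open Finset Filter

namespace Pool.Agent.Y826.LD.Sh

open Pool.Agent.H378R2 (EPhi Phi)
open Pool.Agent.Y826.Z (Pr tau GoodT)
open Pool.Agent.Y826.ZG (rd Hyp Cls)
open Pool.Agent.Y826.ZG.Y950 (tau_nonneg one_le_tau)

lemma goodT_open {K : ℕ} {δ : ℝ} (hδ : 0 < δ) {t : Fin K → ℝ} (ht : ∀ j, 0 ≤ t j) (hs : ∑ j, t j ≤ 1)
    (hG : GoodT δ t) (e : ℝ) (he : 0 ≤ e) (he1 : e ≤ δ / 200) : GoodT (δ / 2) (fun j => (1 + e) * t j) := by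
  intro x hx hsum ν hν1 hν2
  have hd : ∀ j, 0 ≤ x j - min (x j) (t j) ∧ x j - min (x j) (t j) ≤ e * t j := by
    intro j
    have h1 := (hx j).2
    have h2 := mul_nonneg he (ht j)
    simp only at h1
    rcases min_cases (x j) (t j) with h | h
    · rw [h.1]; constructor <;> linarith
    · rw [h.1]; constructor <;> linarith
  have hsumd : ∀ s : Finset (Fin K), 0 ≤ ∑ j ∈ s, x j - ∑ j ∈ s, min (x j) (t j) ∧
      ∑ j ∈ s, x j - ∑ j ∈ s, min (x j) (t j) ≤ e := by
    intro s
    rw [← Finset.sum_sub_distrib]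
    constructor
    · exact Finset.sum_nonneg fun j _ => (hd j).1
    · calc ∑ j ∈ s, (x j - min (x j) (t j)) ≤ ∑ j ∈ s, e * t j := Finset.sum_le_sum fun j _ => (hd j).2
        _ ≤ ∑ j, e * t j := Finset.sum_le_sum_of_subset_of_nonneg (Finset.subset_univ _)
            fun j _ _ => mul_nonneg he (ht j)
        _ = e * ∑ j, t j := by rw [Finset.mul_sum]
        _ ≤ e * 1 := mul_le_mul_of_nonneg_left hs he
        _ = e := mul_one e
  obtain ⟨g, hg⟩ := hG (fun j => min (x j) (t j)) (by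
    intro j
    have := (hx j).1
    have h2 := ht j
    refine ⟨le_min (by linarith) (by linarith), min_le_right _ _⟩) (by
    have := (hsumd univ).2
    linarith) ν (by linarith) (by linarith)
  refine ⟨g, ?_⟩
  intro y hy η hη
  have h5 := hg (fun i => ∑ j ∈ univ.filter (fun j => g j = i), min (x j) (t j)) (fun i => rfl) _ rfl
  have hyd : ∀ i, 0 ≤ y i - ∑ j ∈ univ.filter (fun j => g j = i), min (x j) (t j) ∧
      y i - ∑ j ∈ univ.filter (fun j => g j = i), min (x j) (t j) ≤ e := by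
    intro i
    rw [hy i]
    exact hsumd _
  have y0 := hyd 0
  have y1 := hyd 1
  have y2 := hyd 2
  have y3 := hyd 3
  have y4 := hyd 4
  beta_reduce at h5
  set z0 := ∑ j ∈ univ.filter (fun j => g j = 0), min (x j) (t j)
  set z1 := ∑ j ∈ univ.filter (fun j => g j = 1), min (x j) (t j)
  set z2 := ∑ j ∈ univ.filter (fun j => g j = 2), min (x j) (t j)
  set z3 := ∑ j ∈ univ.filter (fun j => g j = 3), min (x j) (t j)
  set z4 := ∑ j ∈ univ.filter (fun j => g j = 4), min (x j) (t j)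
  set η0 := max 0 (z0 + z1 + 2 * z2 + 2 * z3 + 2 * z4 - (1 - ν)) with hη0
  have hη1 : η ≤ η0 + 8 * e := by
    rw [hη]
    apply max_le
    · have : 0 ≤ η0 := le_max_left _ _
      linarith
    · have : z0 + z1 + 2 * z2 + 2 * z3 + 2 * z4 - (1 - ν) ≤ η0 := le_max_right _ _
      linarith
  obtain ⟨a1, a2, a3, a4, a5⟩ := h5
  refine ⟨by linarith, by linarith, by linarith, by linarith, by linarith⟩

lemma ev_exp (r : ℝ) (hr : r < 1) (c : ℝ) (n : ℕ) :
    ∀ᶠ L : ℝ in atTop, c * L ^ n * Real.exp (r * L) ≤ Real.exp L := by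
  have h1 : (fun L : ℝ => L ^ n) =o[atTop] fun L => Real.exp ((1 - r) * L) :=
    isLittleO_pow_exp_pos_mul_atTop n (by linarith)
  have h2 := h1.bound (show (0 : ℝ) < 1 / (|c| + 1) by positivity)
  filter_upwards [h2, eventually_ge_atTop 0] with L hL hL0
  rw [Real.norm_eq_abs, Real.norm_eq_abs, abs_of_nonneg (pow_nonneg hL0 n), abs_of_pos (Real.exp_pos _)] at hL
  have h3 : c * L ^ n ≤ Real.exp ((1 - r) * L) := by
    have hc : c ≤ |c| + 1 := by have := le_abs_self c; linarith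
    calc c * L ^ n ≤ (|c| + 1) * L ^ n := mul_le_mul_of_nonneg_right hc (pow_nonneg hL0 n)
      _ ≤ (|c| + 1) * (1 / (|c| + 1) * Real.exp ((1 - r) * L)) :=
          mul_le_mul_of_nonneg_left hL (by positivity)
      _ = Real.exp ((1 - r) * L) := by field_simp
  calc c * L ^ n * Real.exp (r * L) ≤ Real.exp ((1 - r) * L) * Real.exp (r * L) :=
        mul_le_mul_of_nonneg_right h3 (Real.exp_pos _).le
    _ = Real.exp L := by rw [← Real.exp_add]; congr 1; ring

lemma rpow_eq {X : ℝ} (hX : 0 < X) (a : ℝ) : X ^ a = Real.exp (a * Real.log X) := by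
  rw [Real.rpow_def_of_pos hX, mul_comm]

open Classical in
lemma Pr_le {K : ℕ} (t : Fin K → ℝ) {X : ℝ} (hX : 1 ≤ X) (hs : ∑ j, t j ≤ 53 / 100) (q : Fin K → ℕ)
    (hq : q ∈ Fintype.piFinset (fun j => Icc 1 ⌊X ^ (t j)⌋₊)) : (Pr q : ℝ) ≤ X ^ (53 / 100 : ℝ) := by
  rw [Fintype.mem_piFinset] at hq
  have hX0 : 0 < X := by linarith
  unfold Pr
  push_cast
  calc ∏ j, (q j : ℝ) ≤ ∏ j, X ^ (t j) := by
        apply Finset.prod_le_prod
        · intro j _; positivity
        · intro j _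
          have := hq j
          rw [mem_Icc] at this
          exact (Nat.le_floor_iff (Real.rpow_nonneg hX0.le _)).1 this.2
    _ = X ^ (∑ j, t j) := (Real.rpow_sum_of_pos hX0 _ _).symm
    _ ≤ X ^ (53 / 100 : ℝ) := Real.rpow_le_rpow_of_exponent_le hX hs

open Classical in
/-- all the scales up to `X` -/
lemma U_bound (hZ : Pool.Agent.Y826.ZG.S_ZZ) (K : ℕ) (h : Fin K → ℤ × ℤ) (W b : ℕ) (hyp : Hyp h W b)
    (t : Fin K → ℝ) (ht : ∀ j, 0 ≤ t j) (hs : ∑ j, t j ≤ 53 / 100) (hG : ∃ δ : ℝ, 0 < δ ∧ GoodT δ t)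
    (bq : (Fin K → ℕ) → ℕ) (hbq : Cls h W b bq) (A C : ℕ) :
    ∀ᶠ X : ℝ in atTop, ∀ v : ℝ, v ≤ Real.log X →
      ∑ q ∈ (Fintype.piFinset (fun j => Icc 1 ⌊X ^ (t j)⌋₊)).filter (fun q => Squarefree (rd W * Pr q)),
        tau (Pr q) ^ C * |EPhi (Real.exp v) (W * Pr q) (bq q)| ≤ X / (Real.log X) ^ A := by
  obtain ⟨δ, hδ, hG⟩ := hG
  set e : ℝ := min (δ / 200) (1 / 100) with he
  have he0 : 0 < e := lt_min (by positivity) (by norm_num)
  have he1 : e ≤ δ / 200 := min_le_left _ _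
  have he2 : e ≤ 1 / 100 := min_le_right _ _
  have hZ1 := hZ K h W b hyp (fun j => (1 + e) * t j) (fun j => mul_nonneg (by linarith) (ht j))
    (by rw [← Finset.mul_sum]; nlinarith [Finset.sum_nonneg fun j (_ : j ∈ univ) => ht j])
    ⟨δ / 2, by positivity, goodT_open hδ ht (by linarith) hG e he0.le he1⟩ bq hbq (A + 1) C
  obtain ⟨X0, hX0⟩ := Filter.eventually_atTop.1 hZ1
  set R : ℕ := 2 ^ (K + C + 1) with hR
  have hr1 : 1 / (1 + e) < 1 := by rw [div_lt_one (by linarith)]; linarith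
  have hr0 : 0 < 1 / (1 + e) := by positivity
  have hev := Real.tendsto_log_atTop.eventually (ev_exp (1 / (1 + e)) hr1 (7 * 2 ^ (R + 1)) (R + A + 1))
  have hev2 : ∀ᶠ X : ℝ in atTop, X0 ≤ Real.exp (1 / (1 + e) * Real.log X) :=
    (Real.tendsto_exp_atTop.comp (Real.tendsto_log_atTop.const_mul_atTop hr0)).eventually_ge_atTop X0
  filter_upwards [hev, hev2, eventually_ge_atTop 3,
    Real.tendsto_log_atTop.eventually_ge_atTop ((2 : ℝ) ^ (A + 1)),
    Real.tendsto_log_atTop.eventually_ge_atTop 2] with X h1 h2 h3 h4 h5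
  intro v hv
  have hXp : 0 < X := by linarith
  set L := Real.log X with hL
  have hXL : X = Real.exp L := (Real.exp_log hXp).symm
  have hLp : 0 < L := by linarith
  set T := (Fintype.piFinset (fun j => Icc 1 ⌊X ^ (t j)⌋₊)).filter (fun q => Squarefree (rd W * Pr q)) with hT
  have hTsq : ∀ q ∈ T, Squarefree (rd W * Pr q) := fun q hq => (mem_filter.1 hq).2
  have hTle : ∀ q ∈ T, (Pr q : ℝ) ≤ X ^ (53 / 100 : ℝ) := fun q hq =>
    Pr_le t (by linarith) hs q (mem_filter.1 hq).1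
  have hTleX : ∀ q ∈ T, Squarefree (rd W * Pr q) ∧ (Pr q : ℝ) ≤ X := fun q hq =>
    ⟨hTsq q hq, (hTle q hq).trans (by
      calc X ^ (53 / 100 : ℝ) ≤ X ^ (1 : ℝ) := Real.rpow_le_rpow_of_exponent_le (by linarith) (by norm_num)
        _ = X := Real.rpow_one X)⟩
  rcases le_or_gt (1 / (1 + e) * L) v with hvr | hvr
  · -- scales near `X`
    have hv0 : 0 < v := lt_of_lt_of_le (by positivity) hvr
    have h6 := hX0 (Real.exp v) (h2.trans (Real.exp_le_exp.2 hvr))
    rw [Real.log_exp] at h6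
    have hLv : L ≤ v * (1 + e) := by
      rw [one_div, inv_mul_le_iff₀ (by linarith)] at hvr
      linarith
    have hsub : T ⊆ (Fintype.piFinset (fun j => Icc 1 ⌊(Real.exp v) ^ ((1 + e) * t j)⌋₊)).filter
        (fun q => Squarefree (rd W * Pr q)) := by
      intro q hq
      rw [mem_filter] at hq ⊢
      refine ⟨?_, hq.2⟩
      rw [Fintype.mem_piFinset] at hq ⊢
      intro j
      have := hq.1 j
      rw [mem_Icc] at this ⊢
      refine ⟨this.1, this.2.trans (Nat.floor_le_floor ?_)⟩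
      rw [rpow_eq hXp, rpow_eq (Real.exp_pos v), Real.log_exp]
      apply Real.exp_le_exp.2
      have := mul_le_mul_of_nonneg_left hLv (ht j)
      linarith
    refine (Finset.sum_le_sum_of_subset_of_nonneg hsub fun q _ _ =>
      mul_nonneg (pow_nonneg (tau_nonneg _) _) (abs_nonneg _)).trans (h6.trans ?_)
    have hv2 : L / 2 ≤ v := by nlinarith
    have h7 : Real.exp v ≤ X := by rw [hXL]; exact Real.exp_le_exp.2 hv
    calc Real.exp v / v ^ (A + 1) ≤ X / (L / 2) ^ (A + 1) := by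
          apply div_le_div₀ hXp.le h7 (by positivity)
          exact pow_le_pow_left₀ (by positivity) hv2 _
      _ = X / L ^ A * (2 ^ (A + 1) / L) := by
          rw [div_pow, pow_succ L A, pow_succ (2 : ℝ) A]; field_simp
      _ ≤ X / L ^ A * 1 := by
          apply mul_le_mul_of_nonneg_left _ (by positivity)
          rw [div_le_one hLp]
          exact h4
      _ = X / L ^ A := mul_one _
  · -- small scales
    have hW := hyp.wpos
    have hQ : ∀ q ∈ T, 0 < W * Pr q := fun q hq =>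
      Nat.mul_pos hW (Nat.pos_of_ne_zero ((hTsq q hq).of_mul_right).ne_zero)
    have hb : ∀ q ∈ T, tau (Pr q) ^ C * |EPhi (Real.exp v) (W * Pr q) (bq q)| ≤
        (L + 2) * (6 * Real.exp (1 / (1 + e) * L)) * (tau (Pr q) ^ C * (1 / (Nat.totient (W * Pr q) : ℝ))) +
          (L + 2) * tau (Pr q) ^ C := by
      intro q hq
      have h6 := EPhi_triv v L (W * Pr q) (bq q) (hQ q hq) hv hLp.le
      have h7 : 6 * Real.exp v / (Nat.totient (W * Pr q) : ℝ) ≤
          6 * Real.exp (1 / (1 + e) * L) / (Nat.totient (W * Pr q) : ℝ) := by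
        gcongr
      have h8 : |EPhi (Real.exp v) (W * Pr q) (bq q)| ≤
          (L + 2) * (6 * Real.exp (1 / (1 + e) * L) / (Nat.totient (W * Pr q) : ℝ) + 1) :=
        h6.trans (mul_le_mul_of_nonneg_left (by linarith) (by linarith))
      refine (mul_le_mul_of_nonneg_left h8 (pow_nonneg (tau_nonneg _) _)).trans (le_of_eq ?_)
      ring
    refine (Finset.sum_le_sum hb).trans ?_
    rw [Finset.sum_add_distrib, ← Finset.mul_sum, ← Finset.mul_sum]
    have t1 := T1 W C hW X h3 T hTleX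
    have t2 := T2 W C X h3 T hTleX (X ^ (53 / 100 : ℝ)) hTle (Real.rpow_nonneg hXp.le _)
    rw [← hR, ← hL] at t1 t2
    have h8 : X ^ (53 / 100 : ℝ) ≤ Real.exp (1 / (1 + e) * L) := by
      rw [rpow_eq hXp]
      apply Real.exp_le_exp.2
      apply mul_le_mul_of_nonneg_right _ hLp.le
      rw [le_div_iff₀ (by linarith)]
      linarith
    have h9 : (L + 2) * (1 + L) ^ R ≤ 2 ^ (R + 1) * L ^ (R + 1) := by
      calc (L + 2) * (1 + L) ^ R ≤ (2 * L) * (2 * L) ^ R := by
            apply mul_le_mul (by linarith) _ (by positivity) (by positivity)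
            exact pow_le_pow_left₀ (by positivity) (by linarith) _
        _ = 2 ^ (R + 1) * L ^ (R + 1) := by rw [← pow_succ', mul_pow]
    set EE := Real.exp (1 / (1 + e) * L) with hEE
    have hEE0 : 0 < EE := Real.exp_pos _
    calc (L + 2) * (6 * EE) * ∑ q ∈ T, tau (Pr q) ^ C * (1 / (Nat.totient (W * Pr q) : ℝ)) +
          (L + 2) * ∑ q ∈ T, tau (Pr q) ^ C
        ≤ (L + 2) * (6 * EE) * (1 + L) ^ R + (L + 2) * (EE * (1 + L) ^ R) := by
          apply add_le_add
          · exact mul_le_mul_of_nonneg_left t1 (by positivity)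
          · apply mul_le_mul_of_nonneg_left _ (by positivity)
            exact t2.trans (mul_le_mul_of_nonneg_right h8 (by positivity))
      _ = 7 * EE * ((L + 2) * (1 + L) ^ R) := by ring
      _ ≤ 7 * EE * (2 ^ (R + 1) * L ^ (R + 1)) := mul_le_mul_of_nonneg_left h9 (by positivity)
      _ ≤ X / L ^ A := by
          rw [le_div_iff₀ (by positivity)]
          calc 7 * EE * (2 ^ (R + 1) * L ^ (R + 1)) * L ^ A
              = 7 * 2 ^ (R + 1) * L ^ (R + A + 1) * EE := by ring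
            _ ≤ Real.exp L := h1
            _ = X := hXL.symm

end Pool.Agent.Y826.LD.Sh
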